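import Pool.Agent.Work.MP_0f91f8_co.BohrCore

/-!
The core of the argument: products of rotations.
-/

open Filter Topology

namespace Pool.Agent.Work.MP_0f91f8_co.Bohr

variable {K : Type*} [CommGroup K]

/-- multiplication by `1 + i τ / 2` -/
def rot (τ : ℚ) (z : ℚ × ℚ) : ℚ × ℚ := (z.1 - z.2 * τ / 2, z.2 + z.1 * τ / 2)

/-- the multipliers needed at the state `z` -/
def lam (z : ℚ × ℚ) : Finset ℚ :=
  {-z.2 / (2 * z.1), z.1 / (2 * z.2), -(z.1 + z.2) / (2 * (z.1 - z.2)),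
    (z.1 - z.2) / (2 * (z.1 + z.2))}

/-- the multipliers needed at a finite set of states -/
def lamS (S : Finset (ℚ × ℚ)) : Finset ℚ := insert (1 / 2) (S.biUnion lam)

variable [TopologicalSpace K] [IsTopologicalGroup K] [CompactSpace K]

theorem core {f : ℕ → K} (hf : ∀ m n : ℕ, 0 < m → 0 < n → f (m * n) = f m * f n)
    {Q : Set ℕ} (hQ : ∀ q ∈ Q, q.Prime) (hs : Summable (wt Q)) {r : ℕ} (C : ℚ → Fin r)
    (q₀ : ℚ) (hq₀ : 0 < q₀) (U : Set K) (hU : U ∈ 𝓝 (gq f q₀)) (δ : ℚ) (hδ : 0 < δ)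
    (hC : ∀ q u : ℚ, 0 < q → 0 < u → gq f q ∈ U → gq f (q * u) ∈ U → QU Q u → |u - 1| < δ →
      C q = C (q * u)) :
    ∃ X Y Z : ℚ, 0 < X ∧ 0 < Y ∧ 0 < Z ∧ X ^ 2 + Y ^ 2 = Z ^ 2 ∧ C X = C Y ∧ C Y = C Z ∧
      gq f X ∈ U ∧ gq f Y ∈ U ∧ gq f Z ∈ U := by
  classical
  -- neighbourhoods
  have hU1 : {v : K | gq f q₀ * v ∈ U} ∈ 𝓝 (1 : K) := by
    have hc : Continuous (fun v : K => gq f q₀ * v) := by fun_prop
    have ht : Tendsto (fun v : K => gq f q₀ * v) (𝓝 1) (𝓝 (gq f q₀)) := by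
      have := hc.tendsto 1
      simpa using this
    exact ht hU
  obtain ⟨V, hV, hV4⟩ := exists_nhds_one_split4 hU1
  have hV1 : (1 : K) ∈ V := mem_of_mem_nhds hV
  obtain ⟨W, hW0, hWn, hWm⟩ := exists_nhds_seq V hV
  obtain ⟨e, he0, he1, he3, heε⟩ := exists_eps (δ / 4) (by positivity)
  have hW1 : ∀ k, (1 : K) ∈ W k := fun k => mem_of_mem_nhds (hWn k)
  have hmono : ∀ k, W k ⊆ V := fun k => by
    have := seq_mono hW1 hWm (Nat.zero_le k)
    rwa [hW0] at this
  -- the sequence of blocks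
  have hex : ∀ (k : ℕ) (S : Finset (ℚ × ℚ)), ∃ p : ℚ × ℚ, 0 < p.1 ∧
      (gq f q₀)⁻¹ * gq f p.1 ∈ W (k + 1) ∧ C p.1 = C (p.1 * p.2) ∧
      0 < p.2 ∧ p.2 < e (k + 1) ∧ gq f p.2 ∈ W (k + 1) ∧
      (∀ l ∈ lamS S, Near f Q (W (k + 1)) (e (k + 1)) (1 + l * p.2)) ∧
      (∀ l ∈ lamS S, QU Q (1 + (l * p.2) ^ 2)) :=
    fun k S => exists_block hf hQ hs C q₀ hq₀ (W (k + 1)) (hWn _) (e (k + 1)) (he0 _) (lamS S)
  choose nxt hnxt using hex
  obtain ⟨st, hst0, hst⟩ : ∃ st : ℕ → Finset (ℚ × ℚ), st 0 = {(1, 0)} ∧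
      ∀ k, st (k + 1) = insert (1, 0) ((st k).image (rot (nxt k (st k)).2)) :=
    ⟨fun k => Nat.rec {(1, 0)} (fun k S => insert (1, 0) (S.image (rot (nxt k S).2))) k,
      rfl, fun _ => rfl⟩
  have hst1 : ∀ k, ((1, 0) : ℚ × ℚ) ∈ st k := by
    intro k
    cases k with
    | zero => rw [hst0]; exact Finset.mem_singleton_self _
    | succ k => rw [hst]; exact Finset.mem_insert_self _ _
  set b : ℕ → ℚ := fun k => (nxt k (st k)).1 with hb
  set τ : ℕ → ℚ := fun k => (nxt k (st k)).2 with hτ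
  have hbpos : ∀ k, 0 < b k := fun k => (hnxt k (st k)).1
  have hbmem : ∀ k, (gq f q₀)⁻¹ * gq f (b k) ∈ W (k + 1) := fun k => (hnxt k (st k)).2.1
  have hbC : ∀ k, C (b k) = C (b k * τ k) := fun k => (hnxt k (st k)).2.2.1
  have hτpos : ∀ k, 0 < τ k := fun k => (hnxt k (st k)).2.2.2.1
  have hτlt : ∀ k, τ k < e (k + 1) := fun k => (hnxt k (st k)).2.2.2.2.1
  have hτmem : ∀ k, gq f (τ k) ∈ W (k + 1) := fun k => (hnxt k (st k)).2.2.2.2.2.1
  have hτnear : ∀ k, ∀ l ∈ lamS (st k), Near f Q (W (k + 1)) (e (k + 1)) (1 + l * τ k) :=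
    fun k => (hnxt k (st k)).2.2.2.2.2.2.1
  have hτnorm : ∀ k, QU Q (1 + (1 / 2 * τ k) ^ 2) := fun k =>
    (hnxt k (st k)).2.2.2.2.2.2.2 _ (Finset.mem_insert_self _ _)
  -- norms
  set w : ℕ → ℚ := fun k => 1 + (1 / 2 * τ k) ^ 2 with hw
  have hwpos : ∀ k, 0 < w k := fun k => by simp only [hw]; positivity
  obtain ⟨R, hR⟩ := exists_rec V hV
  obtain ⟨i, j, hij, -, hP⟩ := hR (fun n => ∏ t ∈ Finset.range n, gq f (w t))
  obtain ⟨n, rfl⟩ : ∃ n, j = i + (n + 1) := ⟨j - i - 1, by omega⟩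
  have hnormmem : gq f (∏ t ∈ Finset.range (n + 1), w (i + t)) ∈ V := by
    rw [gq_prod hf _ _ (fun t _ => hwpos _)]
    have h1 : (∏ t ∈ Finset.range i, gq f (w t))⁻¹ * ∏ t ∈ Finset.range (i + (n + 1)), gq f (w t) =
        ∏ t ∈ Finset.range (n + 1), gq f (w (i + t)) := by
      rw [Finset.prod_range_add, inv_mul_cancel_left]
    rw [← h1]
    exact hP
  -- the chain of states starting at time i
  obtain ⟨z, hz0, hzs⟩ : ∃ z : ℕ → ℚ × ℚ, z 0 = (1, 0) ∧
      ∀ k, z (k + 1) = rot (τ (i + k)) (z k) :=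
    ⟨fun k => Nat.rec (1, 0) (fun k y => rot (τ (i + k)) y) k, rfl, fun _ => rfl⟩
  have hzmem : ∀ k, z k ∈ st (i + k) := by
    intro k
    induction k with
    | zero => rw [hz0]; exact hst1 _
    | succ k ih =>
      rw [hzs]
      have h1 : st (i + (k + 1)) = insert (1, 0) ((st (i + k)).image (rot (τ (i + k)))) :=
        hst (i + k)
      rw [h1]
      exact Finset.mem_insert_of_mem (Finset.mem_image_of_mem _ ih)
  have hlam : ∀ k, ∀ l ∈ lam (z k),
      Near f Q (W (i + k + 1)) (e (i + k + 1)) (1 + l * τ (i + k)) := by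
    intro k l hl
    apply hτnear
    exact Finset.mem_insert_of_mem (Finset.mem_biUnion.2 ⟨z k, hzmem k, hl⟩)
  set uM : ℕ → ℚ := fun k => 1 + (-(z k).2 / (2 * (z k).1)) * τ (i + k) with huM
  set uN : ℕ → ℚ := fun k => 1 + ((z k).1 / (2 * (z k).2)) * τ (i + k) with huN
  set uD : ℕ → ℚ := fun k =>
    1 + (-((z k).1 + (z k).2) / (2 * ((z k).1 - (z k).2))) * τ (i + k) with huD
  set uS : ℕ → ℚ := fun k =>
    1 + (((z k).1 - (z k).2) / (2 * ((z k).1 + (z k).2))) * τ (i + k) with huS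
  have hM : ∀ k, Near f Q (W (i + k + 1)) (e (i + k + 1)) (uM k) := fun k =>
    hlam k _ (by simp [lam])
  have hN : ∀ k, Near f Q (W (i + k + 1)) (e (i + k + 1)) (uN k) := fun k =>
    hlam k _ (by simp [lam])
  have hD : ∀ k, Near f Q (W (i + k + 1)) (e (i + k + 1)) (uD k) := fun k =>
    hlam k _ (by simp [lam])
  have hS : ∀ k, Near f Q (W (i + k + 1)) (e (i + k + 1)) (uS k) := fun k =>
    hlam k _ (by simp [lam])
  have hprodM : ∀ k, (z k).1 = ∏ t ∈ Finset.range k, uM t := by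
    intro k
    induction k with
    | zero => simp [hz0]
    | succ k ih =>
      rw [Finset.prod_range_succ, ← ih, hzs]
      have hne : (z k).1 ≠ 0 := by
        rw [ih]; exact (Finset.prod_pos fun t _ => (hM t).pos).ne'
      simp only [rot, huM]
      field_simp
      ring
  have hMpos : ∀ k, 0 < (z k).1 := fun k => by
    rw [hprodM]; exact Finset.prod_pos fun t _ => (hM t).pos
  have hprodD : ∀ k, (z k).1 - (z k).2 = ∏ t ∈ Finset.range k, uD t := by
    intro k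
    induction k with
    | zero => simp [hz0]
    | succ k ih =>
      rw [Finset.prod_range_succ, ← ih, hzs]
      have hne : (z k).1 - (z k).2 ≠ 0 := by
        rw [ih]; exact (Finset.prod_pos fun t _ => (hD t).pos).ne'
      simp only [rot, huD]
      field_simp
      ring
  have hDpos : ∀ k, 0 < (z k).1 - (z k).2 := fun k => by
    rw [hprodD]; exact Finset.prod_pos fun t _ => (hD t).pos
  have hprodS : ∀ k, (z k).1 + (z k).2 = ∏ t ∈ Finset.range k, uS t := by
    intro k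
    induction k with
    | zero => simp [hz0]
    | succ k ih =>
      rw [Finset.prod_range_succ, ← ih, hzs]
      have hne : (z k).1 + (z k).2 ≠ 0 := by
        rw [ih]; exact (Finset.prod_pos fun t _ => (hS t).pos).ne'
      simp only [rot, huS]
      field_simp
      ring
  have hprodN : ∀ k, 2 * (z (k + 1)).2 = τ i * ∏ t ∈ Finset.range k, uN (t + 1) := by
    intro k
    induction k with
    | zero =>
      simp only [hzs, hz0, rot]
      simp
      ring
    | succ k ih =>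
      rw [Finset.prod_range_succ, ← mul_assoc, ← ih, hzs (k + 1)]
      have hne : (z (k + 1)).2 ≠ 0 := by
        intro h0
        rw [h0] at ih
        have : 0 < τ i * ∏ t ∈ Finset.range k, uN (t + 1) :=
          mul_pos (hτpos i) (Finset.prod_pos fun t _ => (hN (t + 1)).pos)
        rw [← ih] at this
        simp at this
      simp only [rot, huN]
      field_simp
  have hprodZ : ∀ k, (z k).1 ^ 2 + (z k).2 ^ 2 = ∏ t ∈ Finset.range k, w (i + t) := by
    intro k
    induction k with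
    | zero => simp [hz0]
    | succ k ih =>
      rw [Finset.prod_range_succ, ← ih, hzs]
      simp only [rot, hw]
      ring
  -- the four forms
  have hele : ∀ k, e k ≤ e 0 := by
    intro k
    induction k with
    | zero => exact le_rfl
    | succ k ih =>
      have h1 := he3 k
      have h2 := he0 (k + 1)
      linarith
  have nearM : Near f Q V (e 0) (z (n + 1)).1 := by
    rw [hprodM]
    have := near_prod_range hf hQ hW1 hWm he0 he1 he3 (n + 1) i uM (fun t _ => hM t)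
    exact this.mono (hmono _) (hele _)
  have nearD : Near f Q V (e 0) ((z (n + 1)).1 - (z (n + 1)).2) := by
    rw [hprodD]
    have := near_prod_range hf hQ hW1 hWm he0 he1 he3 (n + 1) i uD (fun t _ => hD t)
    exact this.mono (hmono _) (hele _)
  have nearS : Near f Q V (e 0) ((z (n + 1)).1 + (z (n + 1)).2) := by
    rw [hprodS]
    have := near_prod_range hf hQ hW1 hWm he0 he1 he3 (n + 1) i uS (fun t _ => hS t)
    exact this.mono (hmono _) (hele _)
  obtain ⟨ν, hν⟩ : ∃ ν : ℚ, ν = ∏ t ∈ Finset.range n, uN (t + 1) := ⟨_, rfl⟩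
  have nearN : Near f Q V (e 0) ν := by
    rw [hν]
    have := near_prod_range hf hQ hW1 hWm he0 he1 he3 n (i + 1) (fun t => uN (t + 1))
      (fun t _ => by
        have := hN (t + 1)
        have he : i + 1 + t + 1 = i + (t + 1) + 1 := by ring
        rw [he]
        exact this)
    exact this.mono (hmono _) (hele _)
  have nearZ : Near f Q Set.univ (e 0) ((z (n + 1)).1 ^ 2 + (z (n + 1)).2 ^ 2) := by
    rw [hprodZ]
    have := near_prod_range (V := fun _ => (Set.univ : Set K)) hf hQ (fun _ => Set.mem_univ _)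
      (fun _ _ _ _ _ => Set.mem_univ _) he0 he1 he3 (n + 1) i (fun t => w (i + t))
      (fun t _ => by
        refine ⟨hwpos _, hτnorm _, Set.mem_univ _, ?_⟩
        have h1 : w (i + t) - 1 = (1 / 2 * τ (i + t)) ^ 2 := by simp only [hw]; ring
        rw [h1, abs_of_nonneg (sq_nonneg _)]
        have h2 := hτlt (i + t)
        have h3 := hτpos (i + t)
        have h4 := he1 (i + t + 1)
        nlinarith)
    exact this.mono (Set.subset_univ _) (hele _)
  have near2 : ∀ x y : ℚ, Near f Q V (e 0) x → Near f Q V (e 0) y →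
      Near f Q Set.univ δ (x * y) := by
    intro x y hx hy
    refine Near.mul hf hQ (V' := Set.univ) (fun _ _ _ _ => Set.mem_univ _) (he1 0) ?_
      (hx.mono (Set.subset_univ _) le_rfl) (hy.mono (Set.subset_univ _) le_rfl)
    have := heε 0
    linarith
  have hzy : 2 * (z (n + 1)).2 = τ i * ν := by rw [hprodN, hν]
  have hz2pos : 0 < (z (n + 1)).2 := by
    have : 0 < τ i * ν := mul_pos (hτpos i) nearN.pos
    linarith
  -- membership in U
  have hmemU : ∀ v, v ∈ {v : K | gq f q₀ * v ∈ U} → ∀ x : ℚ,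
      gq f x = gq f q₀ * v → gq f x ∈ U := by
    intro v hv x hx
    rw [hx]
    exact hv
  obtain ⟨vb, hvb⟩ : ∃ vb : K, vb = (gq f q₀)⁻¹ * gq f (b i) := ⟨_, rfl⟩
  have hvbV : vb ∈ V := by rw [hvb]; exact hmono _ (hbmem i)
  have hbval : gq f (b i) = gq f q₀ * vb := by rw [hvb, mul_inv_cancel_left]
  have hτV : gq f (τ i) ∈ V := hmono _ (hτmem i)
  obtain ⟨M, hMdef⟩ : ∃ M : ℚ, M = (z (n + 1)).1 := ⟨_, rfl⟩
  obtain ⟨N, hNdef⟩ : ∃ N : ℚ, N = (z (n + 1)).2 := ⟨_, rfl⟩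
  rw [← hMdef] at nearM
  rw [← hMdef, ← hNdef] at nearD nearS nearZ
  rw [← hNdef] at hzy hz2pos
  have hnormmem' : gq f (M ^ 2 + N ^ 2) ∈ V := by
    rw [hMdef, hNdef, hprodZ]
    exact hnormmem
  have hbU : gq f (b i) ∈ U :=
    hmemU _ (hV4 hvbV hV1 hV1 hV1) _ (by rw [hbval]; simp)
  have hXU : gq f (b i * ((M - N) * (M + N))) ∈ U :=
    hmemU _ (hV4 hvbV nearD.mem nearS.mem hV1) _ (by
      rw [gq_mul hf (hbpos i) (mul_pos nearD.pos nearS.pos), gq_mul hf nearD.pos nearS.pos, hbval]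
      simp [mul_assoc])
  have hZU : gq f (b i * (M ^ 2 + N ^ 2)) ∈ U :=
    hmemU _ (hV4 hvbV hnormmem' hV1 hV1) _ (by
      rw [gq_mul hf (hbpos i) nearZ.pos, hbval]
      simp [mul_assoc])
  have hbτpos : 0 < b i * τ i := mul_pos (hbpos i) (hτpos i)
  have hbτU : gq f (b i * τ i) ∈ U :=
    hmemU _ (hV4 hvbV hτV hV1 hV1) _ (by
      rw [gq_mul hf (hbpos i) (hτpos i), hbval]
      simp [mul_assoc])
  have hYU : gq f (b i * τ i * (M * ν)) ∈ U :=
    hmemU _ (hV4 hvbV hτV nearM.mem nearN.mem) _ (by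
      rw [gq_mul hf hbτpos (mul_pos nearM.pos nearN.pos), gq_mul hf (hbpos i) (hτpos i),
        gq_mul hf nearM.pos nearN.pos, hbval]
      simp [mul_assoc])
  have nX := near2 _ _ nearD nearS
  have nY := near2 _ _ nearM nearN
  have nZ : Near f Q Set.univ δ (M ^ 2 + N ^ 2) :=
    nearZ.mono (fun _ h => h) (by have := heε 0; linarith)
  have hCX := hC (b i) _ (hbpos i) nX.pos hbU hXU nX.qu nX.close
  have hCZ := hC (b i) _ (hbpos i) nZ.pos hbU hZU nZ.qu nZ.close
  have hCY := hC (b i * τ i) _ hbτpos nY.pos hbτU hYU nY.qu nY.close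
  have hbCi := hbC i
  refine ⟨b i * ((M - N) * (M + N)), b i * τ i * (M * ν), b i * (M ^ 2 + N ^ 2),
    mul_pos (hbpos i) nX.pos, mul_pos hbτpos nY.pos, mul_pos (hbpos i) nZ.pos, ?_, ?_, ?_,
    hXU, hYU, hZU⟩
  · have h1 : b i * τ i * (M * ν) = b i * (2 * M * N) := by
      have : b i * τ i * (M * ν) = b i * M * (τ i * ν) := by ring
      rw [this, ← hzy]
      ring
    rw [h1]
    ring
  · rw [← hCX, ← hCY, hbCi]
  · rw [← hCY, ← hCZ, hbCi]

end Pool.Agent.Work.MP_0f91f8_co.Bohr
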