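import Pool.Agent.Work.MP_0f91f8_co.Core

namespace Pool.Agent.Work.MP_0f91f8_co

open Filter

theorem run_shift {b : ℕ} [NeZero b] {Q : Type*} (S : ℕ → Fin b → Q → Q) (h0 h ℓ N : ℕ) :
    run (fun k => S (h0 + k)) h ℓ N = run S (h0 + h) ℓ N := by
  funext q
  apply run_congr
  intro i _
  simp [add_assoc]

variable {b : ℕ} [NeZero b] {Q : Type*} [Finite Q] {β : Type*}

/-- The core statement for a recurrent automaton. -/
theorem core2 (hb : 2 ≤ b) (p : Ultrafilter ℕ)
    (hpK : ∀ K : ℕ, ∀ᶠ a in (p : Filter ℕ), K ≤ a)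
    (hpadd : ∀ P : ℕ → Prop, (∀ᶠ a in (p : Filter ℕ), P a) →
      ∀ᶠ a in (p : Filter ℕ), ∀ᶠ a' in (p : Filter ℕ), P (a + a'))
    (S : ℕ → Fin b → Q → Q) (st : ℕ → Q) (out : ℕ → Q → β)
    (hst : ∀ h ℓ, run S h ℓ 0 (st h) = st (h + ℓ))
    (hrec : ∀ H, ∀ᶠ a in (p : Filter ℕ), ∀ h ≤ H,
      S (h + a) = S h ∧ st (h + a) = st h ∧ out (h + a) = out h) :
    ∃ X Y Z hX hZ : ℕ, 0 < X ∧ 0 < Y ∧ 0 < Z ∧ X ^ 2 + Y ^ 2 = Z ^ 2 ∧
      X < b ^ hX ∧ Y < b ^ hZ ∧ Z < b ^ hZ ∧
      out hX (run S 0 hX X (st 0)) = out hZ (run S 0 hZ Y (st 0)) ∧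
      out hZ (run S 0 hZ Y (st 0)) = out hZ (run S 0 hZ Z (st 0)) := by
  have hb0 : 0 < b := by omega
  obtain ⟨⟨h0, L, w0⟩, hmin⟩ : ∃ t : ℕ × ℕ × ℕ, ∀ u : ℕ × ℕ × ℕ,
      (Set.range (run S t.1 t.2.1 t.2.2)).ncard ≤ (Set.range (run S u.1 u.2.1 u.2.2)).ncard := by
    let f : ℕ × ℕ × ℕ → ℕ := fun t => (Set.range (run S t.1 t.2.1 t.2.2)).ncard
    exact ⟨Function.argmin f, fun u => Function.argmin_le f u⟩
  simp only at hmin
  have hmod : run S h0 L w0 = run S h0 L (w0 % b ^ L) := by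
    funext q
    apply run_mod
    simp
  have hwlt : w0 % b ^ L < b ^ L := Nat.mod_lt _ (by positivity)
  have hcore := core hb p hpK hpadd (fun k => S (h0 + k)) (fun k => st (h0 + k))
    (fun k => out (h0 + k))
    (by
      intro h ℓ
      simp only [run_shift]
      rw [hst]
      congr 1
      ring)
    (by
      intro H
      filter_upwards [hrec (h0 + H)] with a ha
      intro h hh
      have := ha (h0 + h) (by omega)
      simpa only [add_assoc] using this)
    L (w0 % b ^ L) hwlt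
    (by
      intro h ℓ N
      simp only [run_shift, add_zero, ← hmod]
      exact hmin (h0 + h, ℓ, N))
  obtain ⟨X, Y, Z, hX, hZ, h1, h2, h3, h4, h5, h6, h7, h8, h9⟩ := hcore
  have key : ∀ N ℓ, N < b ^ ℓ → b ^ h0 * N < b ^ (h0 + ℓ) ∧
      run S 0 (h0 + ℓ) (b ^ h0 * N) (st 0) =
      run (fun k => S (h0 + k)) 0 ℓ N (st (h0 + 0)) := by
    intro N ℓ hN
    constructor
    · rw [pow_add]
      exact Nat.mul_lt_mul_of_pos_left hN (by positivity)
    · rw [run_shift, run_add, Nat.mul_div_cancel_left _ (by positivity), Nat.zero_add, add_zero]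
      congr 1
      have : run S 0 h0 (b ^ h0 * N) (st 0) = run S 0 h0 0 (st 0) := by
        apply run_mod
        simp
      rw [this, hst, Nat.zero_add]
  refine ⟨b ^ h0 * X, b ^ h0 * Y, b ^ h0 * Z, h0 + hX, h0 + hZ, by positivity, by positivity,
    by positivity, ?_, (key X hX h5).1, (key Y hZ h6).1, (key Z hZ h7).1, ?_, ?_⟩
  · calc (b ^ h0 * X) ^ 2 + (b ^ h0 * Y) ^ 2 = (b ^ h0) ^ 2 * (X ^ 2 + Y ^ 2) := by ring
      _ = (b ^ h0 * Z) ^ 2 := by rw [h4]; ring
  · rw [(key X hX h5).2, (key Y hZ h6).2]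
    exact h8
  · rw [(key Y hZ h6).2, (key Z hZ h7).2]
    exact h9

/-- Colourings computed by a level-dependent finite automaton. -/
theorem automaton (hb : 2 ≤ b) [Finite β] (S : ℕ → Fin b → Q → Q) (st : ℕ → Q) (out : ℕ → Q → β)
    (hst : ∀ h, S h 0 (st h) = st (h + 1)) (c : ℕ → β)
    (hc : ∀ h ℓ N, N < b ^ ℓ → out (h + ℓ) (run S h ℓ N (st h)) = c (b ^ h * N)) :
    ∃ X Y Z : ℕ, 0 < X ∧ 0 < Y ∧ 0 < Z ∧ X ^ 2 + Y ^ 2 = Z ^ 2 ∧ c X = c Y ∧ c Y = c Z := by
  have hb0 : 0 < b := by omega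
  obtain ⟨p, hpK, hpadd⟩ := exists_idem
  -- limit symbols
  let sym : ℕ → (Fin b → Q → Q) × Q × (Q → β) := fun h => (S h, st h, out h)
  have hlim : ∀ h, ∃ v, ∀ᶠ a in (p : Filter ℕ), sym (a + h) = v :=
    fun h => exists_lim p (fun a => sym (a + h))
  choose lim hlim using hlim
  have hrec : ∀ h, ∀ᶠ a in (p : Filter ℕ), lim (h + a) = lim h := by
    intro h
    have h1 := hpadd _ (hlim h)
    filter_upwards [h1] with a ha
    obtain ⟨a', h2, h3⟩ := (ha.and (hlim (h + a))).exists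
    rw [← h2, ← h3]
    congr 1
    ring
  have hrecH : ∀ H, ∀ᶠ a in (p : Filter ℕ), ∀ h ≤ H, lim (h + a) = lim h := by
    intro H
    have : ∀ᶠ a in (p : Filter ℕ), ∀ h ∈ Finset.range (H + 1), lim (h + a) = lim h :=
      (Filter.eventually_all_finset _).mpr (fun h _ => hrec h)
    filter_upwards [this] with a ha h hh
    exact ha h (Finset.mem_range.mpr (by omega))
  have hlimH : ∀ H, ∀ᶠ a in (p : Filter ℕ), ∀ h ≤ H, sym (a + h) = lim h := by
    intro H
    have : ∀ᶠ a in (p : Filter ℕ), ∀ h ∈ Finset.range (H + 1), sym (a + h) = lim h :=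
      (Filter.eventually_all_finset _).mpr (fun h _ => hlim h)
    filter_upwards [this] with a ha h hh
    exact ha h (Finset.mem_range.mpr (by omega))
  have hstL : ∀ h, (lim h).1 0 (lim h).2.1 = (lim (h + 1)).2.1 := by
    intro h
    obtain ⟨a, ha⟩ := (hlimH (h + 1)).exists
    rw [← ha h (by omega), ← ha (h + 1) le_rfl]
    exact hst (a + h)
  have hstL2 : ∀ ℓ h, run (fun k => (lim k).1) h ℓ 0 (lim h).2.1 = (lim (h + ℓ)).2.1 := by
    intro ℓ
    induction ℓ with
    | zero => intro h; rfl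
    | succ ℓ ih =>
      intro h
      rw [run_succ, Nat.zero_div]
      change run (fun k => (lim k).1) (h + 1) ℓ 0 ((lim h).1 0 (lim h).2.1) = _
      rw [hstL, ih]
      congr 3
      ring
  obtain ⟨X, Y, Z, hX, hZ, h1, h2, h3, h4, h5, h6, h7, h8, h9⟩ :=
    core2 hb p hpK hpadd (fun k => (lim k).1) (fun k => (lim k).2.1) (fun k => (lim k).2.2)
      (fun h ℓ => hstL2 ℓ h)
      (by
        intro H
        filter_upwards [hrecH H] with a ha h hh
        have := ha h hh
        simp only [this, and_self])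
  obtain ⟨a, ha⟩ := (hlimH (hX + hZ)).exists
  have key : ∀ N ℓ, ℓ ≤ hX + hZ → N < b ^ ℓ →
      c (b ^ a * N) = (lim ℓ).2.2 (run (fun k => (lim k).1) 0 ℓ N (lim 0).2.1) := by
    intro N ℓ hℓ hN
    rw [← hc a ℓ N hN]
    have e1 : out (a + ℓ) = (lim ℓ).2.2 := by rw [← ha ℓ hℓ]
    have e2 : st a = (lim 0).2.1 := by rw [← ha 0 (Nat.zero_le _)]; rfl
    have e3 : run S a ℓ N (lim 0).2.1 = run (fun k => (lim k).1) 0 ℓ N (lim 0).2.1 := by
      apply run_congr
      intro i hi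
      have : (sym (a + i)).1 = (lim i).1 := by rw [ha i (by omega)]
      simpa using this
    rw [e1, e2, e3]
  refine ⟨b ^ a * X, b ^ a * Y, b ^ a * Z, by positivity, by positivity, by positivity, ?_, ?_, ?_⟩
  · calc (b ^ a * X) ^ 2 + (b ^ a * Y) ^ 2 = (b ^ a) ^ 2 * (X ^ 2 + Y ^ 2) := by ring
      _ = (b ^ a * Z) ^ 2 := by rw [h4]; ring
  · rw [key X hX (by omega) h5, key Y hZ (by omega) h6]
    exact h8
  · rw [key Y hZ (by omega) h6, key Z hZ (by omega) h7]
    exact h9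

/-- Colourings with boundedly many sections on each level. -/
theorem bounded_width (b s r : ℕ) (hb : 2 ≤ b) (c : ℕ → Fin r)
    (hc : ∀ k : ℕ, {g : ℕ → Fin r | ∃ j < b ^ k, g = fun n => c (b ^ k * n + j)}.encard ≤ s) :
    ∃ x y z : ℕ, 0 < x ∧ 0 < y ∧ 0 < z ∧ x ^ 2 + y ^ 2 = z ^ 2 ∧ c x = c y ∧ c y = c z := by
  classical
  have hb0 : 0 < b := by omega
  have : NeZero b := ⟨by omega⟩
  have hne : Nonempty (ℕ → Fin r) := ⟨c⟩
  -- numbering of the states
  have hι : ∀ k : ℕ, ∃ f : (ℕ → Fin r) → Fin s,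
      Set.InjOn f {g : ℕ → Fin r | ∃ j < b ^ k, g = fun n => c (b ^ k * n + j)} := by
    intro k
    set G : Set (ℕ → Fin r) := {g : ℕ → Fin r | ∃ j < b ^ k, g = fun n => c (b ^ k * n + j)}
      with hG
    have hGne : G.Nonempty := ⟨_, 0, by positivity, rfl⟩
    have hfin : G.Finite := Set.finite_of_encard_le_coe (hc k)
    have hcard : hfin.toFinset.card ≤ s := by
      have := hc k
      rw [← hG, hfin.encard_eq_coe_toFinset_card] at this
      exact_mod_cast this
    have hspos : 0 < s := by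
      have : 0 < hfin.toFinset.card := by
        rw [Finset.card_pos]
        obtain ⟨g, hg⟩ := hGne
        exact ⟨g, by simpa using hg⟩
      omega
    have : NeZero s := ⟨by omega⟩
    obtain ⟨e⟩ := Function.Embedding.nonempty_of_card_le
      (α := hfin.toFinset) (β := Fin s) (by simpa using hcard)
    refine ⟨fun g => if h : g ∈ hfin.toFinset then e ⟨g, h⟩ else 0, ?_⟩
    intro g hg g' hg' hgg
    have h1 : g ∈ hfin.toFinset := by simpa using hg
    have h2 : g' ∈ hfin.toFinset := by simpa using hg'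
    simp only [h1, h2, dif_pos] at hgg
    have := e.injective hgg
    exact congrArg Subtype.val this
  choose ι hι using hι
  set G : ℕ → Set (ℕ → Fin r) := fun k =>
    {g : ℕ → Fin r | ∃ j < b ^ k, g = fun n => c (b ^ k * n + j)} with hG
  -- a decoding
  let dec : ℕ → Fin s → (ℕ → Fin r) := fun k => Function.invFunOn (ι k) (G k)
  have hdec : ∀ k, ∀ g ∈ G k, dec k (ι k g) = g := by
    intro k g hg
    exact (hι k).leftInvOn_invFunOn hg
  have hdecj : ∀ k j, j < b ^ k → dec k (ι k (fun n => c (b ^ k * n + j))) =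
      fun n => c (b ^ k * n + j) := fun k j hj => hdec k _ ⟨j, hj, rfl⟩
  let S : ℕ → Fin b → Fin s → Fin s := fun k d q =>
    ι (k + 1) (fun n => dec k q (b * n + d))
  let st : ℕ → Fin s := fun k => ι k (fun n => c (b ^ k * n + 0))
  let out : ℕ → Fin s → Fin r := fun k q => dec k q 0
  have hrun : ∀ ℓ h j N, j < b ^ h → run S h ℓ N (ι h (fun n => c (b ^ h * n + j))) =
      ι (h + ℓ) (fun n => c (b ^ (h + ℓ) * n + (b ^ h * (N % b ^ ℓ) + j))) := by
    intro ℓ
    induction ℓ with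
    | zero => intro h j N _; simp [run_zero, Nat.mod_one]
    | succ ℓ ih =>
      intro h j N hj
      rw [run_succ]
      have h1 : S h (Fin.ofNat b N) (ι h (fun n => c (b ^ h * n + j))) =
          ι (h + 1) (fun n => c (b ^ (h + 1) * n + (b ^ h * (N % b) + j))) := by
        change ι (h + 1) (fun n => dec h (ι h (fun n => c (b ^ h * n + j)))
          (b * n + (Fin.ofNat b N : Fin b))) = _
        rw [hdecj h j hj]
        congr 1
        funext n
        congr 1
        have : ((Fin.ofNat b N : Fin b) : ℕ) = N % b := rfl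
        rw [this]
        ring
      rw [h1]
      have hj' : b ^ h * (N % b) + j < b ^ (h + 1) := by
        have : N % b < b := Nat.mod_lt _ hb0
        calc b ^ h * (N % b) + j < b ^ h * (N % b) + b ^ h := by omega
          _ = b ^ h * (N % b + 1) := by ring
          _ ≤ b ^ h * b := Nat.mul_le_mul_left _ this
          _ = b ^ (h + 1) := by ring
      rw [ih (h + 1) _ (N / b) hj']
      have e1 : h + 1 + ℓ = h + (ℓ + 1) := by ring
      rw [e1]
      congr 1
      funext n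
      congr 2
      have e2 : N % b ^ (ℓ + 1) = N % b + b * (N / b % b ^ ℓ) := by
        rw [pow_succ', Nat.mod_mul]
      rw [e2]
      ring
  refine automaton hb S st out ?_ c ?_
  · intro h
    have h1 := hrun 1 h 0 0 (by positivity)
    rw [run_succ, run_zero] at h1
    change S h (Fin.ofNat b 0) (st h) = st (h + 1)
    rw [h1]
    simp [st]
  · intro h ℓ N hN
    have h1 := hrun ℓ h 0 N (by positivity)
    change dec (h + ℓ) (run S h ℓ N (st h)) 0 = _
    change dec (h + ℓ) (run S h ℓ N (ι h (fun n => c (b ^ h * n + 0)))) 0 = _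
    rw [h1, hdecj]
    · simp [Nat.mod_eq_of_lt hN]
    · rw [Nat.mod_eq_of_lt hN, add_zero, pow_add]
      exact Nat.mul_lt_mul_of_pos_left hN (by positivity)

end Pool.Agent.Work.MP_0f91f8_co
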