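import Mathlib

/-!
Multiplicative Bohr colourings and Pythagorean triples: basic lemmas.
-/

open Filter Topology

namespace Pool.Agent.Work.MP_0f91f8_co.Bohr

section Compact

variable {K : Type*} [CommGroup K] [TopologicalSpace K] [IsTopologicalGroup K]

lemma exists_invmul (V : Set K) (hV : V ∈ 𝓝 (1 : K)) :
    ∃ V' ∈ 𝓝 (1 : K), ∀ x ∈ V', ∀ y ∈ V', x⁻¹ * y ∈ V := by
  obtain ⟨V', hV', h⟩ := exists_nhds_split_inv hV
  refine ⟨V', hV', fun x hx y hy => ?_⟩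
  have := h y hy x hx
  rwa [div_eq_mul_inv, mul_comm] at this

lemma exists_cells [CompactSpace K] (V : Set K) (hV : V ∈ 𝓝 (1 : K)) :
    ∃ (t : Finset K) (χ : K → t), ∀ x y, χ x = χ y → x⁻¹ * y ∈ V := by
  classical
  obtain ⟨V', hV', h⟩ := exists_invmul V hV
  have hn : ∀ g : K, {x : K | g⁻¹ * x ∈ V'} ∈ 𝓝 g := by
    intro g
    have hc : Continuous (fun x : K => g⁻¹ * x) := by fun_prop
    have ht : Tendsto (fun x : K => g⁻¹ * x) (𝓝 g) (𝓝 1) := by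
      have := hc.tendsto g
      simpa using this
    exact ht hV'
  obtain ⟨t, -, ht⟩ := (isCompact_univ (X := K)).elim_nhds_subcover
    (fun g => {x : K | g⁻¹ * x ∈ V'}) (fun g _ => hn g)
  have hex : ∀ x : K, ∃ g : t, (g : K)⁻¹ * x ∈ V' := by
    intro x
    have hx := ht (Set.mem_univ x)
    simp only [Set.mem_iUnion] at hx
    obtain ⟨g, hg, hx⟩ := hx
    exact ⟨⟨g, hg⟩, hx⟩
  choose χ hχ using hex
  refine ⟨t, χ, fun x y hxy => ?_⟩
  have h1 := hχ x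
  have h2 := hχ y
  rw [← hxy] at h2
  have h3 := h _ h1 _ h2
  have h4 : (((χ x : K))⁻¹ * x)⁻¹ * (((χ x : K))⁻¹ * y) = x⁻¹ * y := by group
  rwa [h4] at h3

lemma exists_rec [CompactSpace K] (V : Set K) (hV : V ∈ 𝓝 (1 : K)) :
    ∃ R : ℕ, ∀ P : ℕ → K, ∃ i j, i < j ∧ j ≤ R ∧ (P i)⁻¹ * P j ∈ V := by
  classical
  obtain ⟨t, χ, h⟩ := exists_cells V hV
  refine ⟨t.card, fun P => ?_⟩
  have hcard : Fintype.card t < Fintype.card (Fin (t.card + 1)) := by simp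
  obtain ⟨i, j, hij, he⟩ := Fintype.exists_ne_map_eq_of_card_lt
    (fun i : Fin (t.card + 1) => χ (P i)) hcard
  rcases lt_or_gt_of_ne hij with hlt | hgt
  · exact ⟨i, j, hlt, by omega, h _ _ he⟩
  · exact ⟨j, i, hgt, by omega, h _ _ he.symm⟩

lemma exists_pow [CompactSpace K] (V : Set K) (hV : V ∈ 𝓝 (1 : K)) (x : K) :
    ∃ e : ℕ, 1 ≤ e ∧ x ^ e ∈ V := by
  obtain ⟨R, hR⟩ := exists_rec V hV
  obtain ⟨i, j, hij, -, h⟩ := hR (fun n => x ^ n)
  refine ⟨j - i, by omega, ?_⟩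
  have : (x ^ i)⁻¹ * x ^ j = x ^ (j - i) := by
    rw [pow_sub x hij.le, mul_comm]
  rwa [this] at h

lemma exists_net [CompactSpace K] (f : ℕ → K) (V : Set K) (hV : V ∈ 𝓝 (1 : K)) :
    ∃ T : Finset ℕ, (∀ t ∈ T, 0 < t) ∧ ∀ n, 0 < n → ∃ t ∈ T, (f t)⁻¹ * f n ∈ V := by
  classical
  obtain ⟨t, χ, h⟩ := exists_cells V hV
  let rep : t → ℕ := fun g => if hg : ∃ n, 0 < n ∧ χ (f n) = g then hg.choose else 1
  refine ⟨Finset.univ.image rep, ?_, ?_⟩
  · intro m hm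
    obtain ⟨g, -, rfl⟩ := Finset.mem_image.1 hm
    by_cases hg : ∃ n, 0 < n ∧ χ (f n) = g
    · have : rep g = hg.choose := by simp only [rep]; rw [dif_pos hg]
      rw [this]; exact hg.choose_spec.1
    · have : rep g = 1 := by simp only [rep]; rw [dif_neg hg]
      rw [this]; exact one_pos
  · intro n hn
    refine ⟨rep (χ (f n)), Finset.mem_image_of_mem _ (Finset.mem_univ _), ?_⟩
    have hg : ∃ m, 0 < m ∧ χ (f m) = χ (f n) := ⟨n, hn, rfl⟩
    have : rep (χ (f n)) = hg.choose := by simp only [rep]; rw [dif_pos hg]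
    rw [this]
    exact h _ _ hg.choose_spec.2

end Compact

section Rational

variable {K : Type*} [CommGroup K]

/-- extension of a completely multiplicative function to the rationals -/
noncomputable def gq (f : ℕ → K) (q : ℚ) : K := f q.num.natAbs * (f q.den)⁻¹

variable {f : ℕ → K} (hf : ∀ m n : ℕ, 0 < m → 0 < n → f (m * n) = f m * f n)

include hf

lemma f_one : f 1 = 1 := by
  have := hf 1 1 one_pos one_pos
  simpa using this

lemma gq_div {a b : ℕ} (ha : 0 < a) (hb : 0 < b) : gq f ((a : ℚ) / b) = f a * (f b)⁻¹ := by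
  set q : ℚ := (a : ℚ) / b with hq
  have ha' : (0 : ℚ) < a := by exact_mod_cast ha
  have hb' : (0 : ℚ) < b := by exact_mod_cast hb
  have hqpos : 0 < q := div_pos ha' hb'
  have hnum : 0 < q.num := Rat.num_pos.2 hqpos
  have hden : 0 < q.den := q.den_pos
  have h1 : (q.num : ℚ) / q.den = (a : ℚ) / b := by rw [Rat.num_div_den]
  have hd' : (0 : ℚ) < q.den := by exact_mod_cast hden
  have h2 : (q.num : ℚ) * b = a * q.den := by
    rw [div_eq_div_iff hd'.ne' hb'.ne'] at h1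
    exact h1
  have h3 : q.num * b = a * q.den := by exact_mod_cast h2
  have h4 : q.num.natAbs * b = a * q.den := by
    have h5 := congrArg Int.natAbs h3
    rw [Int.natAbs_mul, Int.natAbs_mul] at h5
    simpa using h5
  have hna : 0 < q.num.natAbs := Int.natAbs_pos.2 hnum.ne'
  have h6 : f q.num.natAbs * f b = f a * f q.den := by
    rw [← hf _ _ hna hb, ← hf _ _ ha hden, h4]
  unfold gq
  rw [mul_inv_eq_iff_eq_mul, mul_assoc, mul_comm (f b)⁻¹, ← mul_assoc, ← h6]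
  group

lemma gq_nat {a : ℕ} (ha : 0 < a) : gq f (a : ℚ) = f a := by
  have := gq_div hf ha one_pos
  simpa [f_one hf] using this

lemma gq_one : gq f 1 = 1 := by
  have := gq_nat hf one_pos
  simpa [f_one hf] using this

omit hf [CommGroup K] in
lemma exists_nat_div {q : ℚ} (hq : 0 < q) : ∃ a b : ℕ, 0 < a ∧ 0 < b ∧ q = (a : ℚ) / b := by
  refine ⟨q.num.natAbs, q.den, Int.natAbs_pos.2 (Rat.num_pos.2 hq).ne', q.den_pos, ?_⟩
  have h : ((q.num.natAbs : ℕ) : ℚ) = (q.num : ℚ) := by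
    have h0 : ((q.num.natAbs : ℕ) : ℤ) = q.num := Int.natAbs_of_nonneg (Rat.num_pos.2 hq).le
    have h1 : (((q.num.natAbs : ℕ) : ℤ) : ℚ) = (q.num : ℚ) := by rw [h0]
    rwa [Int.cast_natCast] at h1
  rw [h, Rat.num_div_den]

lemma gq_mul {q q' : ℚ} (hq : 0 < q) (hq' : 0 < q') : gq f (q * q') = gq f q * gq f q' := by
  obtain ⟨a, b, ha, hb, rfl⟩ := exists_nat_div hq
  obtain ⟨a', b', ha', hb', rfl⟩ := exists_nat_div hq'
  have h : ((a : ℚ) / b) * ((a' : ℚ) / b') = ((a * a' : ℕ) : ℚ) / ((b * b' : ℕ) : ℚ) := by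
    push_cast
    rw [div_mul_div_comm]
  rw [h, gq_div hf (Nat.mul_pos ha ha') (Nat.mul_pos hb hb'), gq_div hf ha hb, gq_div hf ha' hb',
    hf _ _ ha ha', hf _ _ hb hb', mul_inv]
  exact mul_mul_mul_comm _ _ _ _

end Rational

/-- positive rationals without prime factors in `Q` -/
def QU (Q : Set ℕ) (u : ℚ) : Prop :=
  ∃ A B : ℕ, 0 < A ∧ 0 < B ∧ (∀ q ∈ Q, ¬ q ∣ A) ∧ (∀ q ∈ Q, ¬ q ∣ B) ∧ u = (A : ℚ) / B

lemma QU.one {Q : Set ℕ} (hQ : ∀ q ∈ Q, q.Prime) : QU Q 1 :=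
  ⟨1, 1, one_pos, one_pos, fun q hq h => (hQ q hq).one_lt.ne' (Nat.dvd_one.1 h),
    fun q hq h => (hQ q hq).one_lt.ne' (Nat.dvd_one.1 h), by norm_num⟩

lemma QU.mul {Q : Set ℕ} (hQ : ∀ q ∈ Q, q.Prime) {u v : ℚ} (hu : QU Q u) (hv : QU Q v) :
    QU Q (u * v) := by
  obtain ⟨A, B, hA, hB, hA', hB', rfl⟩ := hu
  obtain ⟨C, D, hC, hD, hC', hD', rfl⟩ := hv
  refine ⟨A * C, B * D, Nat.mul_pos hA hC, Nat.mul_pos hB hD, ?_, ?_, ?_⟩
  · intro q hq h
    rcases (hQ q hq).dvd_mul.1 h with h | h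
    · exact hA' q hq h
    · exact hC' q hq h
  · intro q hq h
    rcases (hQ q hq).dvd_mul.1 h with h | h
    · exact hB' q hq h
    · exact hD' q hq h
  · push_cast
    rw [div_mul_div_comm]

section Near

variable {K : Type*} [CommGroup K]

/-- rational numbers close to one: positive, no prime factors in `Q`, image in `V`, and
at real distance less than `ε` from one -/
structure Near (f : ℕ → K) (Q : Set ℕ) (V : Set K) (ε : ℚ) (u : ℚ) : Prop where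
  pos : 0 < u
  qu : QU Q u
  mem : gq f u ∈ V
  close : |u - 1| < ε

variable {f : ℕ → K} (hf : ∀ m n : ℕ, 0 < m → 0 < n → f (m * n) = f m * f n)
  {Q : Set ℕ} (hQ : ∀ q ∈ Q, q.Prime)

lemma Near.mono {V V' : Set K} {ε ε' : ℚ} {u : ℚ} (h : Near f Q V ε u) (hV : V ⊆ V')
    (hε : ε ≤ ε') : Near f Q V' ε' u :=
  ⟨h.pos, h.qu, hV h.mem, lt_of_lt_of_le h.close hε⟩

include hf hQ

lemma near_one {V : Set K} (hV : (1 : K) ∈ V) {ε : ℚ} (hε : 0 < ε) : Near f Q V ε 1 :=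
  ⟨one_pos, QU.one hQ, by rw [gq_one hf]; exact hV, by simpa using hε⟩

lemma Near.mul {V V' : Set K} (hV : ∀ x ∈ V', ∀ y ∈ V', x * y ∈ V) {ε ε' : ℚ}
    (h1 : ε' ≤ 1) (h3 : 3 * ε' ≤ ε) {u v : ℚ} (hu : Near f Q V' ε' u) (hv : Near f Q V' ε' v) :
    Near f Q V ε (u * v) := by
  refine ⟨mul_pos hu.pos hv.pos, QU.mul hQ hu.qu hv.qu, ?_, ?_⟩
  · rw [gq_mul hf hu.pos hv.pos]
    exact hV _ hu.mem _ hv.mem
  · have hu1 := abs_lt.1 hu.close
    have hv1 := abs_lt.1 hv.close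
    have he : u * v - 1 = (u - 1) * v + (v - 1) := by ring
    have hv2 : |v| < 2 := by
      rw [abs_lt]
      constructor <;> linarith [hu1.1, hu1.2, hv1.1, hv1.2]
    have hε' : 0 < ε' := lt_of_le_of_lt (abs_nonneg _) hu.close
    calc |u * v - 1| = |(u - 1) * v + (v - 1)| := by rw [he]
      _ ≤ |(u - 1) * v| + |v - 1| := abs_add_le _ _
      _ = |u - 1| * |v| + |v - 1| := by rw [abs_mul]
      _ < ε' * 2 + ε' := by
        have h5 : |u - 1| * |v| ≤ ε' * 2 :=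
          mul_le_mul hu.close.le hv2.le (abs_nonneg _) hε'.le
        linarith [hv.close]
      _ = 3 * ε' := by ring
      _ ≤ ε := h3

/-- products along a sequence with shrinking tolerances -/
lemma near_prod {V : ℕ → Set K} {ε : ℕ → ℚ} (hV1 : ∀ k, (1 : K) ∈ V k)
    (hV : ∀ k, ∀ x ∈ V (k + 1), ∀ y ∈ V (k + 1), x * y ∈ V k)
    (hε0 : ∀ k, 0 < ε k) (hε1 : ∀ k, ε k ≤ 1) (hε : ∀ k, 3 * ε (k + 1) ≤ ε k)
    {u : ℕ → ℚ} (n : ℕ) : ∀ a : ℕ, (∀ t, a ≤ t → Near f Q (V (t + 1)) (ε (t + 1)) (u t)) →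
      Near f Q (V a) (ε a) (∏ t ∈ Finset.Ico a (a + n), u t) := by
  induction n with
  | zero =>
    intro a _
    simpa using near_one hf hQ (hV1 a) (hε0 a)
  | succ n ih =>
    intro a hu
    have h1 : ∏ t ∈ Finset.Ico a (a + (n + 1)), u t
        = u a * ∏ t ∈ Finset.Ico (a + 1) (a + 1 + n), u t := by
      rw [Finset.prod_eq_prod_Ico_succ_bot (by omega)]
      congr 2
      congr 1
      omega
    rw [h1]
    exact Near.mul hf hQ (hV a) (hε1 (a + 1)) (hε a) (hu a le_rfl)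
      (ih (a + 1) (fun t ht => hu t (by omega)))

end Near

section Seq

variable {K : Type*} [CommGroup K] [TopologicalSpace K] [IsTopologicalGroup K]

lemma exists_nhds_seq (V : Set K) (hV : V ∈ 𝓝 (1 : K)) :
    ∃ W : ℕ → Set K, W 0 = V ∧ (∀ k, W k ∈ 𝓝 (1 : K)) ∧
      ∀ k, ∀ x ∈ W (k + 1), ∀ y ∈ W (k + 1), x * y ∈ W k := by
  have hstep : ∀ S : {S : Set K // S ∈ 𝓝 (1 : K)}, ∃ S' : {S : Set K // S ∈ 𝓝 (1 : K)},
      ∀ x ∈ S'.1, ∀ y ∈ S'.1, x * y ∈ S.1 := by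
    intro S
    obtain ⟨S', hS', h⟩ := exists_nhds_one_split S.2
    exact ⟨⟨S', hS'⟩, h⟩
  choose g hg using hstep
  let W : ℕ → {S : Set K // S ∈ 𝓝 (1 : K)} := fun n => Nat.rec ⟨V, hV⟩ (fun _ S => g S) n
  refine ⟨fun n => (W n).1, rfl, fun k => (W k).2, fun k => ?_⟩
  exact hg (W k)

end Seq

end Pool.Agent.Work.MP_0f91f8_co.Bohr
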