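import Pool.Agent.Work.MP_0f91f8_co.BohrTau

/-!
The core of the argument: blocks of infinitesimals and products of rotations.
-/

open Filter Topology

namespace Pool.Agent.Work.MP_0f91f8_co.Bohr

variable {K : Type*} [CommGroup K]

lemma gq_prod {f : ℕ → K} (hf : ∀ m n : ℕ, 0 < m → 0 < n → f (m * n) = f m * f n)
    {ι : Type*} (s : Finset ι) (u : ι → ℚ) (hu : ∀ i ∈ s, 0 < u i) :
    gq f (∏ i ∈ s, u i) = ∏ i ∈ s, gq f (u i) := by
  classical
  induction s using Finset.induction_on with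
  | empty => simpa using gq_one hf
  | insert a s ha ih =>
    rw [Finset.prod_insert ha, Finset.prod_insert ha,
      gq_mul hf (hu a (Finset.mem_insert_self _ _))
        (Finset.prod_pos fun i hi => hu i (Finset.mem_insert_of_mem hi)),
      ih fun i hi => hu i (Finset.mem_insert_of_mem hi)]

lemma mem_prod_range {V : ℕ → Set K} (hV1 : ∀ k, (1 : K) ∈ V k)
    (hV : ∀ k, ∀ x ∈ V (k + 1), ∀ y ∈ V (k + 1), x * y ∈ V k) (n : ℕ) :
    ∀ (a : ℕ) (h : ℕ → K), (∀ t < n, h t ∈ V (a + t + 1)) →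
      ∏ t ∈ Finset.range n, h t ∈ V a := by
  induction n with
  | zero => intro a h _; simpa using hV1 a
  | succ n ih =>
    intro a h hh
    rw [Finset.prod_range_succ']
    apply hV
    · apply ih (a + 1) (fun t => h (t + 1))
      intro t ht
      have := hh (t + 1) (by omega)
      have he : a + 1 + t + 1 = a + (t + 1) + 1 := by ring
      rw [he]
      exact this
    · exact hh 0 (by omega)

lemma near_prod_range {f : ℕ → K} (hf : ∀ m n : ℕ, 0 < m → 0 < n → f (m * n) = f m * f n)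
    {Q : Set ℕ} (hQ : ∀ q ∈ Q, q.Prime) {V : ℕ → Set K} {ε : ℕ → ℚ} (hV1 : ∀ k, (1 : K) ∈ V k)
    (hV : ∀ k, ∀ x ∈ V (k + 1), ∀ y ∈ V (k + 1), x * y ∈ V k)
    (hε0 : ∀ k, 0 < ε k) (hε1 : ∀ k, ε k ≤ 1) (hε : ∀ k, 3 * ε (k + 1) ≤ ε k) (n : ℕ) :
    ∀ (a : ℕ) (u : ℕ → ℚ), (∀ t < n, Near f Q (V (a + t + 1)) (ε (a + t + 1)) (u t)) →
      Near f Q (V a) (ε a) (∏ t ∈ Finset.range n, u t) := by
  induction n with
  | zero => intro a u _; simpa using near_one hf hQ (hV1 a) (hε0 a)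
  | succ n ih =>
    intro a u hu
    rw [Finset.prod_range_succ']
    refine Near.mul hf hQ (hV a) (hε1 (a + 1)) (hε a) ?_ ?_
    · apply ih (a + 1) (fun t => u (t + 1))
      intro t ht
      have := hu (t + 1) (by omega)
      have he : a + 1 + t + 1 = a + (t + 1) + 1 := by ring
      rw [he]
      exact this
    · exact hu 0 (by omega)

/-- the sequence of real tolerances -/
lemma exists_eps (ε : ℚ) (hε : 0 < ε) : ∃ e : ℕ → ℚ, (∀ k, 0 < e k) ∧ (∀ k, e k ≤ 1) ∧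
    (∀ k, 3 * e (k + 1) ≤ e k) ∧ (∀ k, e k ≤ ε) := by
  refine ⟨fun k => min ε 1 / 4 ^ k, ?_, ?_, ?_, ?_⟩
  · intro k
    have : 0 < min ε 1 := lt_min hε one_pos
    positivity
  · intro k
    have h0 : 0 < min ε 1 := lt_min hε one_pos
    have h1 : (1 : ℚ) ≤ 4 ^ k := one_le_pow₀ (by norm_num)
    calc min ε 1 / 4 ^ k ≤ min ε 1 / 1 := div_le_div_of_nonneg_left h0.le one_pos h1
      _ ≤ 1 := by rw [div_one]; exact min_le_right _ _
  · intro k
    have h0 : 0 < min ε 1 := lt_min hε one_pos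
    have h1 : (0 : ℚ) < 4 ^ k := by positivity
    show 3 * (min ε 1 / 4 ^ (k + 1)) ≤ min ε 1 / 4 ^ k
    rw [pow_succ]
    have : 3 * (min ε 1 / (4 ^ k * 4)) = (3 / 4) * (min ε 1 / 4 ^ k) := by
      field_simp
    rw [this]
    have h2 : 0 < min ε 1 / 4 ^ k := by positivity
    linarith
  · intro k
    have h0 : 0 < min ε 1 := lt_min hε one_pos
    have h1 : (1 : ℚ) ≤ 4 ^ k := one_le_pow₀ (by norm_num)
    calc min ε 1 / 4 ^ k ≤ min ε 1 / 1 := div_le_div_of_nonneg_left h0.le one_pos h1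
      _ ≤ ε := by rw [div_one]; exact min_le_left _ _

lemma seq_mono {V : ℕ → Set K} (hV1 : ∀ k, (1 : K) ∈ V k)
    (hV : ∀ k, ∀ x ∈ V (k + 1), ∀ y ∈ V (k + 1), x * y ∈ V k) {a b : ℕ} (h : a ≤ b) :
    V b ⊆ V a := by
  induction b, h using Nat.le_induction with
  | base => exact fun _ hx => hx
  | succ n _ ih =>
    intro x hx
    apply ih
    have := hV n x hx 1 (hV1 (n + 1))
    rwa [mul_one] at this

variable [TopologicalSpace K] [IsTopologicalGroup K] [CompactSpace K]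

lemma exists_block {f : ℕ → K} (hf : ∀ m n : ℕ, 0 < m → 0 < n → f (m * n) = f m * f n)
    {Q : Set ℕ} (hQ : ∀ q ∈ Q, q.Prime) (hs : Summable (wt Q)) {r : ℕ} (C : ℚ → Fin r)
    (q₀ : ℚ) (hq₀ : 0 < q₀)
    (V : Set K) (hV : V ∈ 𝓝 (1 : K)) (ε : ℚ) (hε : 0 < ε) (Λ : Finset ℚ) :
    ∃ p : ℚ × ℚ, 0 < p.1 ∧ (gq f q₀)⁻¹ * gq f p.1 ∈ V ∧ C p.1 = C (p.1 * p.2) ∧
      0 < p.2 ∧ p.2 < ε ∧ gq f p.2 ∈ V ∧ (∀ l ∈ Λ, Near f Q V ε (1 + l * p.2)) ∧
      (∀ l ∈ Λ, QU Q (1 + (l * p.2) ^ 2)) := by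
  classical
  obtain ⟨W, hW0, hWn, hWm⟩ := exists_nhds_seq V hV
  obtain ⟨e, he0, he1, he3, heε⟩ := exists_eps ε hε
  have hW1 : ∀ k, (1 : K) ∈ W k := fun k => mem_of_mem_nhds (hWn k)
  have hmono : ∀ k, W k ⊆ V := fun k => by
    have := seq_mono hW1 hWm (Nat.zero_le k)
    rwa [hW0] at this
  have hex : ∀ (k : ℕ) (S : Finset ℚ), ∃ τ : ℚ, 0 < τ ∧ τ < e (k + 1) ∧ gq f τ ∈ W (k + 1) ∧
      (∀ l ∈ S, Near f Q (W (k + 1)) (e (k + 1)) (1 + l * τ)) ∧
      (∀ l ∈ S, QU Q (1 + (l * τ) ^ 2)) :=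
    fun k S => exists_tau hf hQ hs (W (k + 1)) (hWn _) (e (k + 1)) (he0 _) S
  choose nxt hnxt using hex
  let st : ℕ → Finset ℚ := fun k =>
    Nat.rec Λ (fun k S => S ∪ S.image (fun l => l * nxt k S)) k
  have hst : ∀ k, st (k + 1) = st k ∪ (st k).image (fun l => l * nxt k (st k)) := fun k => rfl
  set τ : ℕ → ℚ := fun k => nxt k (st k) with hτ
  have hτpos : ∀ k, 0 < τ k := fun k => (hnxt k (st k)).1
  have hτlt : ∀ k, τ k < e (k + 1) := fun k => (hnxt k (st k)).2.1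
  have hτmem : ∀ k, gq f (τ k) ∈ W (k + 1) := fun k => (hnxt k (st k)).2.2.1
  have hstmono : ∀ k, Λ ⊆ st k := by
    intro k
    induction k with
    | zero => exact fun _ h => h
    | succ k ih => rw [hst]; exact ih.trans Finset.subset_union_left
  have hchain : ∀ i k, ∀ l ∈ Λ, l * ∏ t ∈ Finset.range k, τ (i + t) ∈ st (i + k) := by
    intro i k
    induction k with
    | zero => intro l hl; simpa using hstmono i hl
    | succ k ih =>
      intro l hl
      rw [Finset.prod_range_succ, ← mul_assoc]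
      have h1 : st (i + (k + 1)) = st (i + k) ∪
          (st (i + k)).image (fun l => l * nxt (i + k) (st (i + k))) := hst (i + k)
      rw [h1]
      exact Finset.mem_union_right _ (Finset.mem_image_of_mem _ (ih l hl))
  -- base points
  set p : ℕ → ℚ := fun k => q₀ * ∏ t ∈ Finset.range k, τ t with hp
  have hppos : ∀ k, 0 < p k := fun k => mul_pos hq₀ (Finset.prod_pos fun t _ => hτpos t)
  have hcard : Fintype.card (Fin r) < Fintype.card (Fin (r + 1)) := by simp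
  obtain ⟨i, j, hij, hCij⟩ : ∃ i j : ℕ, i < j ∧ C (p i) = C (p j) := by
    obtain ⟨i, j, hne, h⟩ := Fintype.exists_ne_map_eq_of_card_lt
      (fun i : Fin (r + 1) => C (p i)) hcard
    rcases lt_or_gt_of_ne hne with h' | h'
    · exact ⟨i, j, h', h⟩
    · exact ⟨j, i, h', h.symm⟩
  obtain ⟨k, rfl⟩ : ∃ k, j = i + (k + 1) := ⟨j - i - 1, by omega⟩
  have hprod : p (i + (k + 1)) = p i * ∏ t ∈ Finset.range (k + 1), τ (i + t) := by
    simp only [hp]
    rw [Finset.prod_range_add, mul_assoc]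
  have hblockpos : 0 < ∏ t ∈ Finset.range (k + 1), τ (i + t) :=
    Finset.prod_pos fun t _ => hτpos _
  have hτ1 : ∀ k, τ k < 1 := fun k => lt_of_lt_of_le (hτlt k) (he1 _)
  refine ⟨(p i, ∏ t ∈ Finset.range (k + 1), τ (i + t)), hppos i, ?_, ?_, hblockpos, ?_, ?_, ?_, ?_⟩
  · simp only [hp]
    rw [gq_mul hf hq₀ (Finset.prod_pos fun t _ => hτpos t), inv_mul_cancel_left,
      gq_prod hf _ _ (fun t _ => hτpos t)]
    have := mem_prod_range hW1 hWm i 0 (fun t => gq f (τ t)) (fun t _ => by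
      have := hτmem t
      simpa using this)
    rwa [hW0] at this
  · simp only
    rw [← hprod]
    exact hCij
  · simp only
    rw [Finset.prod_range_succ']
    have h1 : ∏ t ∈ Finset.range k, τ (i + (t + 1)) ≤ 1 :=
      Finset.prod_le_one (fun t _ => (hτpos _).le) (fun t _ => (hτ1 _).le)
    calc (∏ t ∈ Finset.range k, τ (i + (t + 1))) * τ (i + 0) ≤ 1 * τ (i + 0) :=
          mul_le_mul_of_nonneg_right h1 (hτpos _).le
      _ = τ (i + 0) := one_mul _
      _ < e (i + 0 + 1) := hτlt _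
      _ ≤ ε := heε _
  · simp only
    rw [gq_prod hf _ _ (fun t _ => hτpos _)]
    apply hmono i
    apply mem_prod_range hW1 hWm (k + 1) i
    intro t _
    exact hτmem (i + t)
  · intro l hl
    simp only
    rw [Finset.prod_range_succ, ← mul_assoc]
    have h1 := (hnxt (i + k) (st (i + k))).2.2.2.1 _ (hchain i k l hl)
    exact h1.mono (hmono _) (heε _)
  · intro l hl
    simp only
    rw [Finset.prod_range_succ, ← mul_assoc]
    exact (hnxt (i + k) (st (i + k))).2.2.2.2 _ (hchain i k l hl)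

end Pool.Agent.Work.MP_0f91f8_co.Bohr
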