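import Pool.Agent.Work.MP_0f91f8_co.BohrRot

/-!
From colourings of the positive integers to colourings of the positive rationals by an
ultrafilter, and the final theorem.
-/

open Filter Topology

namespace Pool.Agent.Work.MP_0f91f8_co.Bohr

variable {K : Type*} [CommGroup K]

/-- one dilation into the thick set -/
lemma exists_dilate {A : Set ℕ}
    (hA : ∀ X : Finset ℕ, (∀ x ∈ X, 0 < x) → ∃ k : ℕ, 0 < k ∧ ∀ x ∈ X, x * k ∈ A)
    (Y : Finset ℚ) (hY : ∀ q ∈ Y, 0 < q) :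
    ∃ k : ℕ, 0 < k ∧ ∀ q ∈ Y, ∃ n : ℕ, n ∈ A ∧ (n : ℚ) = k * q := by
  classical
  set D : ℕ := ∏ q ∈ Y, q.den with hD
  have hDpos : 0 < D := Finset.prod_pos fun q _ => q.den_pos
  have hint : ∀ q ∈ Y, ∃ x : ℕ, 0 < x ∧ (x : ℚ) = D * q := by
    intro q hq
    obtain ⟨k, hk⟩ : q.den ∣ D := Finset.dvd_prod_of_mem _ hq
    have hkpos : 0 < k := by
      rcases Nat.eq_zero_or_pos k with h | h
      · rw [h, mul_zero] at hk; omega
      · exact h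
    have hnum : 0 < q.num := Rat.num_pos.2 (hY q hq)
    have h1 : ((q.num.natAbs : ℕ) : ℚ) = (q.num : ℚ) := by
      have h0 : ((q.num.natAbs : ℕ) : ℤ) = q.num := Int.natAbs_of_nonneg hnum.le
      have h1 : (((q.num.natAbs : ℕ) : ℤ) : ℚ) = (q.num : ℚ) := by rw [h0]
      rwa [Int.cast_natCast] at h1
    refine ⟨k * q.num.natAbs, Nat.mul_pos hkpos (Int.natAbs_pos.2 hnum.ne'), ?_⟩
    have h3 : (q.den : ℚ) ≠ 0 := by exact_mod_cast q.den_nz
    rw [hk]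
    push_cast
    have h1' : ((q.num.natAbs : ℕ) : ℚ) = q * q.den := by rw [h1, Rat.mul_den_eq_num]
    have h1'' : (k : ℚ) * ((q.num.natAbs : ℕ) : ℚ) = (q.den : ℚ) * k * q := by
      rw [h1']; ring
    simpa using h1''
  choose! x hx using hint
  obtain ⟨k', hk', hkA⟩ := hA (Y.image x) (by
    intro y hy
    obtain ⟨q, hq, rfl⟩ := Finset.mem_image.1 hy
    exact (hx q hq).1)
  refine ⟨D * k', Nat.mul_pos hDpos hk', fun q hq => ⟨x q * k', hkA _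
    (Finset.mem_image_of_mem _ hq), ?_⟩⟩
  push_cast
  rw [(hx q hq).2]
  ring

variable [TopologicalSpace K] [IsTopologicalGroup K] [CompactSpace K]

/-- dilation into the thick set with prescribed smallness -/
lemma exists_dilate' {f : ℕ → K} (hf : ∀ m n : ℕ, 0 < m → 0 < n → f (m * n) = f m * f n)
    {A : Set ℕ}
    (hA : ∀ X : Finset ℕ, (∀ x ∈ X, 0 < x) → ∃ k : ℕ, 0 < k ∧ ∀ x ∈ X, x * k ∈ A)
    (Y : Finset ℚ) (hY : ∀ q ∈ Y, 0 < q) (V : Set K) (hV : V ∈ 𝓝 (1 : K)) :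
    ∃ k : ℕ, 0 < k ∧ f k ∈ V ∧ ∀ q ∈ Y, ∃ n : ℕ, n ∈ A ∧ (n : ℚ) = k * q := by
  classical
  have hstep : ∀ S : {S : Finset ℚ // ∀ q ∈ S, 0 < q}, ∃ k : ℕ, 0 < k ∧
      ∀ q ∈ S.1, ∃ n : ℕ, n ∈ A ∧ (n : ℚ) = k * q := fun S => exists_dilate hA S.1 S.2
  choose nxt hnxt using hstep
  obtain ⟨st, hst0, hst⟩ : ∃ st : ℕ → {S : Finset ℚ // ∀ q ∈ S, 0 < q}, st 0 = ⟨Y, hY⟩ ∧
      ∀ k, (st (k + 1)).1 = (st k).1 ∪ (st k).1.image (fun q => (nxt (st k) : ℚ) * q) := by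
    let g : {S : Finset ℚ // ∀ q ∈ S, 0 < q} → {S : Finset ℚ // ∀ q ∈ S, 0 < q} := fun S =>
      ⟨S.1 ∪ S.1.image (fun q => (nxt S : ℚ) * q), by
        intro q hq
        rcases Finset.mem_union.1 hq with h | h
        · exact S.2 q h
        · obtain ⟨q', hq', rfl⟩ := Finset.mem_image.1 h
          exact mul_pos (by exact_mod_cast (hnxt S).1) (S.2 q' hq')⟩
    exact ⟨fun k => Nat.rec ⟨Y, hY⟩ (fun _ S => g S) k, rfl, fun _ => rfl⟩
  set κ : ℕ → ℕ := fun k => nxt (st k) with hκ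
  have hκpos : ∀ k, 0 < κ k := fun k => (hnxt (st k)).1
  have hmono : ∀ k, Y ⊆ (st k).1 := by
    intro k
    induction k with
    | zero => rw [hst0]
    | succ k ih => rw [hst]; exact ih.trans Finset.subset_union_left
  have hchain : ∀ i k, ∀ q ∈ Y, ((∏ t ∈ Finset.range k, κ (i + t) : ℕ) : ℚ) * q ∈
      (st (i + k)).1 := by
    intro i k
    induction k with
    | zero => intro q hq; simpa using hmono i hq
    | succ k ih =>
      intro q hq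
      rw [Finset.prod_range_succ]
      have h1 : (st (i + (k + 1))).1 = (st (i + k)).1 ∪
          (st (i + k)).1.image (fun q => (nxt (st (i + k)) : ℚ) * q) := hst (i + k)
      rw [h1]
      apply Finset.mem_union_right
      rw [Finset.mem_image]
      refine ⟨_, ih q hq, ?_⟩
      simp only [hκ]
      push_cast
      ring
  obtain ⟨R, hR⟩ := exists_rec V hV
  obtain ⟨i, j, hij, -, hP⟩ := hR (fun n => ∏ t ∈ Finset.range n, f (κ t))
  obtain ⟨n, rfl⟩ : ∃ n, j = i + (n + 1) := ⟨j - i - 1, by omega⟩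
  have hfprod : ∀ (g : ℕ → ℕ), (∀ t, 0 < g t) → ∀ m, f (∏ t ∈ Finset.range m, g t) =
      ∏ t ∈ Finset.range m, f (g t) := by
    intro g hg m
    induction m with
    | zero => simpa using f_one hf
    | succ m ih =>
      rw [Finset.prod_range_succ, Finset.prod_range_succ,
        hf _ _ (Finset.prod_pos fun t _ => hg t) (hg m), ih]
  refine ⟨∏ t ∈ Finset.range (n + 1), κ (i + t), Finset.prod_pos fun t _ => hκpos _, ?_, ?_⟩
  · rw [hfprod _ (fun t => hκpos _)]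
    have h1 : (∏ t ∈ Finset.range i, f (κ t))⁻¹ * ∏ t ∈ Finset.range (i + (n + 1)), f (κ t) =
        ∏ t ∈ Finset.range (n + 1), f (κ (i + t)) := by
      rw [Finset.prod_range_add, inv_mul_cancel_left]
    rw [← h1]
    exact hP
  · intro q hq
    obtain ⟨m, hmA, hm⟩ := (hnxt (st (i + n))).2 _ (hchain i n q hq)
    refine ⟨m, hmA, ?_⟩
    rw [hm, Finset.prod_range_succ]
    simp only [hκ]
    push_cast
    ring

theorem main {f : ℕ → K} (hf : ∀ m n : ℕ, 0 < m → 0 < n → f (m * n) = f m * f n)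
    {n₀ : ℕ} (hn₀ : 0 < n₀) {U : Set K} (hU : U ∈ 𝓝 (f n₀))
    {A : Set ℕ}
    (hA : ∀ X : Finset ℕ, (∀ x ∈ X, 0 < x) → ∃ k : ℕ, 0 < k ∧ ∀ x ∈ X, x * k ∈ A)
    {Q : Set ℕ} (hQ : ∀ q ∈ Q, q.Prime) (hs : Summable (fun q : Q => 1 / Real.sqrt (q : ℕ)))
    {δ : ℝ} (hδ : 0 < δ) {r : ℕ} {c : ℕ → Fin r}
    (hc : ∀ m n : ℕ, 0 < m → 0 < n → m ∈ A → n ∈ A → f m ∈ U → f n ∈ U →
      (∀ q ∈ Q, padicValNat q m = padicValNat q n) → |(m : ℝ) - n| ≤ δ * m → c m = c n) :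
    ∃ x y z : ℕ, 0 < x ∧ 0 < y ∧ 0 < z ∧ x ^ 2 + y ^ 2 = z ^ 2 ∧ x ∈ A ∧ y ∈ A ∧ z ∈ A ∧
      f x ∈ U ∧ f y ∈ U ∧ f z ∈ U ∧ c x = c y ∧ c y = c z := by
  classical
  have hs' : Summable (wt Q) := by
    have h1 := (summable_subtype_iff_indicator (f := fun q : ℕ => 1 / Real.sqrt q) (s := Q)).1 hs
    exact h1
  obtain ⟨δ', hδ'0, hδ'⟩ : ∃ δ' : ℚ, 0 < δ' ∧ (δ' : ℝ) < δ := by
    obtain ⟨d, hd0, hd⟩ := exists_rat_btwn hδ
    exact ⟨d, by exact_mod_cast hd0, hd⟩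
  -- the filter of good dilations
  let E : {S : Finset ℚ // ∀ q ∈ S, 0 < q} × {V : Set K // V ∈ 𝓝 (1 : K)} → Set ℕ := fun p =>
    {k | 0 < k ∧ f k ∈ p.2.1 ∧ ∀ q ∈ p.1.1, ∃ n : ℕ, n ∈ A ∧ (n : ℚ) = k * q}
  have hne : Nonempty ({S : Finset ℚ // ∀ q ∈ S, 0 < q} × {V : Set K // V ∈ 𝓝 (1 : K)}) :=
    ⟨⟨⟨∅, by simp⟩, ⟨Set.univ, univ_mem⟩⟩⟩
  have hdir : Directed (· ≥ ·) (fun p => 𝓟 (E p)) := by
    rintro ⟨⟨S₁, h₁⟩, ⟨V₁, hV₁⟩⟩ ⟨⟨S₂, h₂⟩, ⟨V₂, hV₂⟩⟩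
    refine ⟨⟨⟨S₁ ∪ S₂, ?_⟩, ⟨V₁ ∩ V₂, inter_mem hV₁ hV₂⟩⟩, ?_, ?_⟩
    · intro q hq
      rcases Finset.mem_union.1 hq with h | h
      · exact h₁ q h
      · exact h₂ q h
    · apply principal_mono.2
      rintro k ⟨hk, hkV, hkS⟩
      exact ⟨hk, hkV.1, fun q hq => hkS q (Finset.mem_union_left _ hq)⟩
    · apply principal_mono.2
      rintro k ⟨hk, hkV, hkS⟩
      exact ⟨hk, hkV.2, fun q hq => hkS q (Finset.mem_union_right _ hq)⟩
  have hbot : NeBot (⨅ p, 𝓟 (E p)) := by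
    apply iInf_neBot_of_directed' hdir
    rintro ⟨⟨S, hS⟩, ⟨V, hV⟩⟩
    rw [principal_neBot_iff]
    exact exists_dilate' hf hA S hS V hV
  obtain ⟨𝒰, h𝒰⟩ : ∃ 𝒰 : Ultrafilter ℕ, (𝒰 : Filter ℕ) ≤ ⨅ p, 𝓟 (E p) :=
    ⟨Ultrafilter.of _, Ultrafilter.of_le _⟩
  have hev : ∀ (S : Finset ℚ) (_ : ∀ q ∈ S, 0 < q) (V : Set K) (_ : V ∈ 𝓝 (1 : K)),
      ∀ᶠ k in (𝒰 : Filter ℕ), 0 < k ∧ f k ∈ V ∧ ∀ q ∈ S, ∃ n : ℕ, n ∈ A ∧ (n : ℚ) = k * q := by
    intro S hS V hV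
    have h1 : (𝒰 : Filter ℕ) ≤ 𝓟 (E ⟨⟨S, hS⟩, ⟨V, hV⟩⟩) := h𝒰.trans (iInf_le _ _)
    exact le_principal_iff.1 h1
  -- the limit colouring
  have hCex : ∀ q : ℚ, ∃ i : Fin r, ∀ᶠ k : ℕ in (𝒰 : Filter ℕ), c ⌊(k : ℚ) * q⌋₊ = i := by
    intro q
    obtain ⟨i, hi⟩ := Ultrafilter.eq_pure_of_finite (𝒰.map (fun k : ℕ => c ⌊(k : ℚ) * q⌋₊))
    refine ⟨i, ?_⟩
    have h1 : ({i} : Set (Fin r)) ∈ 𝒰.map (fun k : ℕ => c ⌊(k : ℚ) * q⌋₊) := by
      rw [hi]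
      exact rfl
    exact h1
  choose C hC using hCex
  have hfq : ∀ (k n : ℕ) (q : ℚ), 0 < k → 0 < q → (n : ℚ) = k * q → f n = f k * gq f q := by
    intro k n q hk hq hn
    have hk' : (0 : ℚ) < k := by exact_mod_cast hk
    have hnpos : 0 < n := by
      have : (0 : ℚ) < n := by rw [hn]; exact mul_pos hk' hq
      exact_mod_cast this
    rw [← gq_nat hf hnpos, hn, gq_mul hf hk' hq, gq_nat hf hk]
  have hnb : ∀ q : ℚ, gq f q ∈ interior U → {v : K | v * gq f q ∈ interior U} ∈ 𝓝 (1 : K) := by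
    intro q hq
    have hcont : Continuous (fun v : K => v * gq f q) := by fun_prop
    have ht : Tendsto (fun v : K => v * gq f q) (𝓝 1) (𝓝 (gq f q)) := by
      have := hcont.tendsto 1
      simpa using this
    exact ht (isOpen_interior.mem_nhds hq)
  have hU' : interior U ∈ 𝓝 (gq f (n₀ : ℚ)) := by
    rw [gq_nat hf hn₀]
    exact interior_mem_nhds.2 hU
  have hprop : ∀ q u : ℚ, 0 < q → 0 < u → gq f q ∈ interior U → gq f (q * u) ∈ interior U →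
      QU Q u → |u - 1| < δ' → C q = C (q * u) := by
    intro q u hq hu hqU hquU hQU hclose
    have h1 := hev {q, q * u} (by
      intro q' hq'
      rw [Finset.mem_insert, Finset.mem_singleton] at hq'
      rcases hq' with rfl | rfl
      · exact hq
      · exact mul_pos hq hu) _ (inter_mem (hnb q hqU) (hnb _ hquU))
    have h2 := (h1.and ((hC q).and (hC (q * u)))).exists
    obtain ⟨k, ⟨hk, hkV, hkS⟩, hCq, hCqu⟩ := h2
    obtain ⟨n, hnA, hn⟩ := hkS q (by simp)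
    obtain ⟨m, hmA, hm⟩ := hkS (q * u) (by simp)
    rw [← hn, Nat.floor_natCast] at hCq
    rw [← hm, Nat.floor_natCast] at hCqu
    rw [← hCq, ← hCqu]
    have hk' : (0 : ℚ) < k := by exact_mod_cast hk
    have hnq : (0 : ℚ) < n := by rw [hn]; exact mul_pos hk' hq
    have hmq : (0 : ℚ) < m := by rw [hm]; exact mul_pos hk' (mul_pos hq hu)
    have hnpos : 0 < n := by exact_mod_cast hnq
    have hmpos : 0 < m := by exact_mod_cast hmq
    have hmn : (m : ℚ) = n * u := by rw [hm, hn]; ring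
    apply hc n m hnpos hmpos hnA hmA
    · rw [hfq k n q hk hq hn]
      exact interior_subset hkV.1
    · rw [hfq k m (q * u) hk (mul_pos hq hu) hm]
      exact interior_subset hkV.2
    · obtain ⟨A₀, B₀, hA₀, hB₀, hAQ, hBQ, huv⟩ := hQU
      have hBne : (B₀ : ℚ) ≠ 0 := by exact_mod_cast hB₀.ne'
      have h3 : m * B₀ = n * A₀ := by
        have h4 : (m : ℚ) * B₀ = n * A₀ := by
          rw [hmn, huv]
          field_simp
        exact_mod_cast h4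
      intro p hp
      have : Fact p.Prime := ⟨hQ p hp⟩
      have h5 := congrArg (padicValNat p) h3
      rw [padicValNat.mul hmpos.ne' hB₀.ne', padicValNat.mul hnpos.ne' hA₀.ne',
        padicValNat.eq_zero_of_not_dvd (hAQ p hp), padicValNat.eq_zero_of_not_dvd (hBQ p hp)] at h5
      simpa using h5.symm
    · have h3 : |(n : ℚ) - m| ≤ δ' * n := by
        have h4 : (n : ℚ) - m = -(n * (u - 1)) := by rw [hmn]; ring
        rw [h4, abs_neg, abs_mul, abs_of_pos hnq, mul_comm]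
        exact mul_le_mul_of_nonneg_right hclose.le hnq.le
      have h5 : |(n : ℝ) - m| ≤ δ' * n := by exact_mod_cast h3
      refine h5.trans ?_
      have : (0 : ℝ) ≤ n := by positivity
      exact mul_le_mul_of_nonneg_right hδ'.le this
  obtain ⟨X, Y, Z, hX, hY, hZ, hXYZ, hCXY, hCYZ, hXU, hYU, hZU⟩ :=
    core hf hQ hs' C (n₀ : ℚ) (by exact_mod_cast hn₀) (interior U) hU' δ' hδ'0 hprop
  have h1 := hev {X, Y, Z} (by
    intro q' hq'
    rw [Finset.mem_insert, Finset.mem_insert, Finset.mem_singleton] at hq'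
    rcases hq' with rfl | rfl | rfl
    · exact hX
    · exact hY
    · exact hZ) _ (inter_mem (hnb X hXU) (inter_mem (hnb Y hYU) (hnb Z hZU)))
  obtain ⟨k, ⟨hk, hkV, hkS⟩, hCX, hCY, hCZ⟩ :=
    (h1.and ((hC X).and ((hC Y).and (hC Z)))).exists
  obtain ⟨x, hxA, hx⟩ := hkS X (by simp)
  obtain ⟨y, hyA, hy⟩ := hkS Y (by simp)
  obtain ⟨z, hzA, hz⟩ := hkS Z (by simp)
  rw [← hx, Nat.floor_natCast] at hCX
  rw [← hy, Nat.floor_natCast] at hCY
  rw [← hz, Nat.floor_natCast] at hCZ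
  have hk' : (0 : ℚ) < k := by exact_mod_cast hk
  have hxpos : 0 < x := by
    have : (0 : ℚ) < x := by rw [hx]; exact mul_pos hk' hX
    exact_mod_cast this
  have hypos : 0 < y := by
    have : (0 : ℚ) < y := by rw [hy]; exact mul_pos hk' hY
    exact_mod_cast this
  have hzpos : 0 < z := by
    have : (0 : ℚ) < z := by rw [hz]; exact mul_pos hk' hZ
    exact_mod_cast this
  refine ⟨x, y, z, hxpos, hypos, hzpos, ?_, hxA, hyA, hzA, ?_, ?_, ?_, ?_, ?_⟩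
  · have : (x : ℚ) ^ 2 + (y : ℚ) ^ 2 = (z : ℚ) ^ 2 := by
      rw [hx, hy, hz]
      calc ((k : ℚ) * X) ^ 2 + (k * Y) ^ 2 = k ^ 2 * (X ^ 2 + Y ^ 2) := by ring
        _ = k ^ 2 * Z ^ 2 := by rw [hXYZ]
        _ = (k * Z) ^ 2 := by ring
    exact_mod_cast this
  · rw [hfq k x X hk hX hx]
    exact interior_subset hkV.1
  · rw [hfq k y Y hk hY hy]
    exact interior_subset hkV.2.1
  · rw [hfq k z Z hk hZ hz]
    exact interior_subset hkV.2.2
  · rw [hCX, hCY, hCXY]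
  · rw [hCY, hCZ, hCYZ]

end Pool.Agent.Work.MP_0f91f8_co.Bohr
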