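import Mathlib

/-!
A sieve lemma: shifts for which finitely many linear and quadratic expressions have no large prime
factor in a sparse set of primes.
-/

namespace Pool.Agent.Work.MP_0f91f8_co.Bohr

open Finset

lemma card_mod_le (q X c : ℕ) (hq : 0 < q) :
    ((range X).filter (fun A => A ≡ c [MOD q])).card ≤ X / q + 1 := by
  rw [← Nat.count_eq_card_filter_range, Nat.count_modEq_card _ hq]
  split_ifs <;> omega

lemma modEq_of_dvd_sub {q m s A B : ℕ} (hq : q.Prime) (hm : ¬ q ∣ m)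
    (h : (q : ℤ) ∣ (1 + m * (A + s) : ℤ) - (1 + m * (B + s))) : A ≡ B [MOD q] := by
  have h1 : (q : ℤ) ∣ (m : ℤ) * ((A : ℤ) - B) := by
    have : (1 + m * (A + s) : ℤ) - (1 + m * (B + s)) = (m : ℤ) * ((A : ℤ) - B) := by ring
    rwa [this] at h
  have hqp : Prime (q : ℤ) := Nat.prime_iff_prime_int.1 hq
  rcases hqp.dvd_or_dvd h1 with h2 | h2
  · exact absurd (by exact_mod_cast h2) hm
  · have : (B : ℤ) ≡ A [ZMOD q] := (Int.modEq_iff_dvd).2 h2
    exact ((Int.natCast_modEq_iff).1 this).symm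

lemma card_lin (q m s X : ℕ) (hq : q.Prime) (hm : ¬ q ∣ m) :
    ((range X).filter (fun A => q ∣ 1 + m * (A + s))).card ≤ X / q + 1 := by
  classical
  rcases ((range X).filter (fun A => q ∣ 1 + m * (A + s))).eq_empty_or_nonempty with h | ⟨A₀, h⟩
  · rw [h]; simp
  · rw [mem_filter] at h
    refine le_trans (card_le_card ?_) (card_mod_le q X A₀ hq.pos)
    intro A hA
    rw [mem_filter] at hA ⊢
    refine ⟨hA.1, ?_⟩
    apply modEq_of_dvd_sub hq hm (s := s)
    have h1 : (q : ℤ) ∣ (1 + m * (A + s) : ℤ) := by exact_mod_cast hA.2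
    have h2 : (q : ℤ) ∣ (1 + m * (A₀ + s) : ℤ) := by exact_mod_cast h.2
    exact dvd_sub h1 h2

lemma card_quad (q m s e X : ℕ) (hq : q.Prime) (hm : ¬ q ∣ m) :
    ((range X).filter (fun A => q ∣ (1 + m * (A + s)) ^ 2 + e ^ 2)).card ≤ 2 * (X / q + 1) := by
  classical
  rcases ((range X).filter (fun A => q ∣ (1 + m * (A + s)) ^ 2 + e ^ 2)).eq_empty_or_nonempty
    with h | ⟨A₀, h⟩
  · rw [h]; simp
  · rw [mem_filter] at h
    have hqp : Prime (q : ℤ) := Nat.prime_iff_prime_int.1 hq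
    have hex : ∃ A₁ : ℕ, ∀ A : ℕ, (q : ℤ) ∣ (1 + m * (A + s) : ℤ) + (1 + m * (A₀ + s)) →
        A ≡ A₁ [MOD q] := by
      by_cases hne : ∃ A₁ : ℕ, (q : ℤ) ∣ (1 + m * (A₁ + s) : ℤ) + (1 + m * (A₀ + s))
      · obtain ⟨A₁, h₁⟩ := hne
        refine ⟨A₁, fun A hA => ?_⟩
        apply modEq_of_dvd_sub hq hm (s := s)
        have := dvd_sub hA h₁
        have he : (1 + m * (A + s) : ℤ) + (1 + m * (A₀ + s)) -
            ((1 + m * (A₁ + s) : ℤ) + (1 + m * (A₀ + s))) =
            (1 + m * (A + s) : ℤ) - (1 + m * (A₁ + s)) := by ring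
        rwa [he] at this
      · exact ⟨0, fun A hA => absurd ⟨A, hA⟩ hne⟩
    obtain ⟨A₁, hA₁⟩ := hex
    have hsub : (range X).filter (fun A => q ∣ (1 + m * (A + s)) ^ 2 + e ^ 2) ⊆
        (range X).filter (fun A => A ≡ A₀ [MOD q]) ∪
        (range X).filter (fun A => A ≡ A₁ [MOD q]) := by
      intro A hA
      rw [mem_filter] at hA
      rw [mem_union, mem_filter, mem_filter]
      have h1 : (q : ℤ) ∣ (1 + m * (A + s) : ℤ) ^ 2 + e ^ 2 := by exact_mod_cast hA.2
      have h2 : (q : ℤ) ∣ (1 + m * (A₀ + s) : ℤ) ^ 2 + e ^ 2 := by exact_mod_cast h.2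
      have h3 := dvd_sub h1 h2
      have he : (1 + m * (A + s) : ℤ) ^ 2 + e ^ 2 - ((1 + m * (A₀ + s) : ℤ) ^ 2 + e ^ 2) =
          ((1 + m * (A + s) : ℤ) - (1 + m * (A₀ + s))) *
          ((1 + m * (A + s) : ℤ) + (1 + m * (A₀ + s))) := by ring
      rw [he] at h3
      rcases hqp.dvd_or_dvd h3 with h4 | h4
      · exact Or.inl ⟨hA.1, modEq_of_dvd_sub hq hm h4⟩
      · exact Or.inr ⟨hA.1, hA₁ A h4⟩
    calc _ ≤ _ := card_le_card hsub
      _ ≤ _ := card_union_le _ _
      _ ≤ (X / q + 1) + (X / q + 1) :=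
        add_le_add (card_mod_le q X A₀ hq.pos) (card_mod_le q X A₁ hq.pos)
      _ = 2 * (X / q + 1) := by ring

/-- weight of a natural number: `1/√q` on `Q`, zero elsewhere -/
noncomputable def wt (Q : Set ℕ) (q : ℕ) : ℝ := Q.indicator (fun q : ℕ => 1 / Real.sqrt q) q

lemma wt_nonneg (Q : Set ℕ) (q : ℕ) : 0 ≤ wt Q q := by
  unfold wt
  apply Set.indicator_nonneg
  intro q _
  positivity

lemma wt_of_mem {Q : Set ℕ} {q : ℕ} (h : q ∈ Q) : wt Q q = 1 / Real.sqrt q := by
  unfold wt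
  rw [Set.indicator_of_mem h]

lemma exists_tail {Q : Set ℕ} (hs : Summable (wt Q)) {η : ℝ} (hη : 0 < η) (N₀ : ℕ) :
    ∃ N : ℕ, N₀ ≤ N ∧ ∀ F : Finset ℕ, (∀ q ∈ F, N < q) → ∑ q ∈ F, wt Q q ≤ η := by
  classical
  have h1 : Filter.Tendsto (fun n => ∑ i ∈ range n, wt Q i) Filter.atTop (nhds (∑' i, wt Q i)) :=
    hs.hasSum.tendsto_sum_nat
  have h2 : ∀ᶠ n in Filter.atTop, (∑' i, wt Q i) - η < ∑ i ∈ range n, wt Q i :=
    h1.eventually (lt_mem_nhds (by linarith))
  obtain ⟨N₁, hN₁⟩ := Filter.eventually_atTop.1 h2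
  refine ⟨max N₀ N₁, le_max_left _ _, fun F hF => ?_⟩
  have h3 : Disjoint (range (max N₀ N₁)) F := by
    rw [disjoint_left]
    intro a ha haF
    have := hF a haF
    rw [mem_range] at ha
    omega
  have h4 : ∑ q ∈ range (max N₀ N₁) ∪ F, wt Q q ≤ ∑' i, wt Q i :=
    hs.sum_le_tsum _ (fun i _ => wt_nonneg Q i)
  rw [sum_union h3] at h4
  have h5 := hN₁ (max N₀ N₁) (le_max_right _ _)
  linarith

lemma sieve {Q : Set ℕ} (hQ : ∀ q ∈ Q, q.Prime) (hs : Summable (wt Q)) (H G N₀ : ℕ) :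
    ∃ N : ℕ, N₀ ≤ N ∧ ∀ m : ℕ, (∀ q ∈ Q, N < q → ¬ q ∣ m) → ∀ E : Finset ℕ, E.card ≤ G →
      ∀ X₀ : ℕ, ∃ A : ℕ, X₀ ≤ A ∧ ∀ q ∈ Q, N < q →
        (∀ s ≤ H, ¬ q ∣ 1 + m * (A + s)) ∧
        (∀ s ≤ H, ∀ e ∈ E, ¬ q ∣ (1 + m * (A + s)) ^ 2 + e ^ 2) := by
  classical
  set C₀ : ℕ := (H + 1) * (1 + 2 * G) with hC₀
  have hC₀pos : (0 : ℝ) < C₀ := by
    have : 0 < C₀ := by positivity
    exact_mod_cast this
  obtain ⟨N, hN₀, hN⟩ := exists_tail hs (η := 1 / (4 * C₀)) (by positivity) N₀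
  refine ⟨N, hN₀, ?_⟩
  intro m hm E hE X₀
  set emax : ℕ := E.sup id with hemax
  have hle : ∀ e ∈ E, e ≤ emax := fun e he => le_sup (f := id) he
  set C₁ : ℕ := 1 + m + m * H + emax with hC₁
  obtain ⟨N₂, hN₂le, hN₂⟩ := exists_tail hs (η := 1 / (4 * C₀ * (1 + C₁))) (by positivity) N
  -- the range of shifts
  set X : ℕ := 2 * (C₀ * (N₂ + 1) + X₀) + 1 with hX
  have hXpos : (0 : ℝ) < X := by
    have : 0 < X := by omega
    exact_mod_cast this
  have hX1 : 1 ≤ X := by omega
  set Y : ℕ := (C₁ * X) ^ 2 with hY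
  set QF : Finset ℕ := (Ioc N Y).filter (fun q => q ∈ Q) with hQF
  let bad : ℕ → Finset ℕ := fun q =>
    ((range (H + 1)).biUnion fun s => (range X).filter (fun A => q ∣ 1 + m * (A + s))) ∪
    ((range (H + 1)).biUnion fun s => E.biUnion fun e =>
      (range X).filter (fun A => q ∣ (1 + m * (A + s)) ^ 2 + e ^ 2))
  have hbad : ∀ q ∈ QF, ((bad q).card : ℝ) ≤ C₀ * ((X : ℝ) / q + 1) := by
    intro q hq
    rw [hQF, mem_filter, mem_Ioc] at hq
    have hqp := hQ q hq.2
    have hqm := hm q hq.2 hq.1.1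
    have h1 : (((range (H + 1)).biUnion fun s =>
        (range X).filter (fun A => q ∣ 1 + m * (A + s))).card) ≤ (H + 1) * (X / q + 1) := by
      refine le_trans card_biUnion_le ?_
      calc _ ≤ ∑ _s ∈ range (H + 1), (X / q + 1) :=
            sum_le_sum fun s _ => card_lin q m s X hqp hqm
        _ = (H + 1) * (X / q + 1) := by simp
    have h2 : (((range (H + 1)).biUnion fun s => E.biUnion fun e =>
        (range X).filter (fun A => q ∣ (1 + m * (A + s)) ^ 2 + e ^ 2)).card) ≤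
        (H + 1) * (G * (2 * (X / q + 1))) := by
      refine le_trans card_biUnion_le ?_
      calc _ ≤ ∑ _s ∈ range (H + 1), (G * (2 * (X / q + 1))) := by
            refine sum_le_sum fun s _ => ?_
            refine le_trans card_biUnion_le ?_
            calc _ ≤ ∑ _e ∈ E, (2 * (X / q + 1)) :=
                  sum_le_sum fun e _ => card_quad q m s e X hqp hqm
              _ = E.card * (2 * (X / q + 1)) := by simp
              _ ≤ G * (2 * (X / q + 1)) := Nat.mul_le_mul_right _ hE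
        _ = (H + 1) * (G * (2 * (X / q + 1))) := by simp
    have h3 : (bad q).card ≤ C₀ * (X / q + 1) := by
      calc (bad q).card ≤ _ := card_union_le _ _
        _ ≤ (H + 1) * (X / q + 1) + (H + 1) * (G * (2 * (X / q + 1))) := add_le_add h1 h2
        _ = C₀ * (X / q + 1) := by rw [hC₀]; ring
    have h4 : ((X / q : ℕ) : ℝ) ≤ (X : ℝ) / q := Nat.cast_div_le
    calc ((bad q).card : ℝ) ≤ ((C₀ * (X / q + 1) : ℕ) : ℝ) := by exact_mod_cast h3
      _ = C₀ * (((X / q : ℕ) : ℝ) + 1) := by push_cast; ring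
      _ ≤ C₀ * ((X : ℝ) / q + 1) := by
        apply mul_le_mul_of_nonneg_left _ hC₀pos.le
        linarith
  have hqpos : ∀ q ∈ QF, (0 : ℝ) < q := by
    intro q hq
    rw [hQF, mem_filter] at hq
    exact_mod_cast (hQ q hq.2).pos
  have hone : ∀ q ∈ QF, 1 / (q : ℝ) ≤ wt Q q := by
    intro q hq
    have hq0 := hqpos q hq
    rw [hQF, mem_filter] at hq
    rw [wt_of_mem hq.2]
    have h1 : (1 : ℝ) ≤ q := by exact_mod_cast (hQ q hq.2).one_lt.le
    apply one_div_le_one_div_of_le (Real.sqrt_pos.2 hq0)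
    rw [Real.sqrt_le_left hq0.le]
    nlinarith
  -- sum over the bad primes
  have hsum : ∑ q ∈ QF, ((X : ℝ) / q + 1) ≤ X / (2 * C₀) + N₂ := by
    rw [← sum_filter_add_sum_filter_not QF (fun q => q ≤ N₂)]
    have hA : ∑ q ∈ QF.filter (fun q => q ≤ N₂), ((X : ℝ) / q + 1) ≤ X / (4 * C₀) + N₂ := by
      rw [sum_add_distrib]
      have h1 : ∑ q ∈ QF.filter (fun q => q ≤ N₂), (X : ℝ) / q ≤ X / (4 * C₀) := by
        calc ∑ q ∈ QF.filter (fun q => q ≤ N₂), (X : ℝ) / q
            ≤ ∑ q ∈ QF.filter (fun q => q ≤ N₂), X * wt Q q := by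
              refine sum_le_sum fun q hq => ?_
              rw [mem_filter] at hq
              have := hone q hq.1
              calc (X : ℝ) / q = X * (1 / q) := by ring
                _ ≤ X * wt Q q := mul_le_mul_of_nonneg_left this hXpos.le
          _ = X * ∑ q ∈ QF.filter (fun q => q ≤ N₂), wt Q q := by rw [mul_sum]
          _ ≤ X * (1 / (4 * C₀)) := by
              apply mul_le_mul_of_nonneg_left _ hXpos.le
              apply hN
              intro q hq
              rw [mem_filter, hQF, mem_filter, mem_Ioc] at hq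
              exact hq.1.1.1
          _ = X / (4 * C₀) := by ring
      have h2 : ∑ _q ∈ QF.filter (fun q => q ≤ N₂), (1 : ℝ) ≤ N₂ := by
        rw [sum_const, nsmul_eq_mul, mul_one]
        have : (QF.filter (fun q => q ≤ N₂)).card ≤ (Ioc 0 N₂).card := by
          apply card_le_card
          intro q hq
          rw [mem_filter, hQF, mem_filter, mem_Ioc] at hq
          rw [mem_Ioc]
          omega
        rw [Nat.card_Ioc] at this
        exact_mod_cast this
      linarith
    have hB : ∑ q ∈ QF.filter (fun q => ¬ q ≤ N₂), ((X : ℝ) / q + 1) ≤ X / (4 * C₀) := by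
      calc ∑ q ∈ QF.filter (fun q => ¬ q ≤ N₂), ((X : ℝ) / q + 1)
          ≤ ∑ q ∈ QF.filter (fun q => ¬ q ≤ N₂), (X * (1 + C₁)) * wt Q q := by
            refine sum_le_sum fun q hq => ?_
            rw [mem_filter] at hq
            have h1 := hone q hq.1
            have h0 := hqpos q hq.1
            have hq' := hq.1
            rw [hQF, mem_filter, mem_Ioc] at hq'
            have h2 : (1 : ℝ) ≤ (C₁ * X) * wt Q q := by
              rw [wt_of_mem hq'.2, mul_one_div, le_div_iff₀ (Real.sqrt_pos.2 h0), one_mul]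
              rw [Real.sqrt_le_left (by positivity)]
              have : q ≤ (C₁ * X) ^ 2 := hq'.1.2
              exact_mod_cast this
            calc (X : ℝ) / q + 1 ≤ X * wt Q q + (C₁ * X) * wt Q q := by
                  have : (X : ℝ) / q ≤ X * wt Q q := by
                    calc (X : ℝ) / q = X * (1 / q) := by ring
                      _ ≤ X * wt Q q := mul_le_mul_of_nonneg_left h1 hXpos.le
                  linarith
              _ = (X * (1 + C₁)) * wt Q q := by ring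
        _ = (X * (1 + C₁)) * ∑ q ∈ QF.filter (fun q => ¬ q ≤ N₂), wt Q q := by rw [mul_sum]
        _ ≤ (X * (1 + C₁)) * (1 / (4 * C₀ * (1 + C₁))) := by
            apply mul_le_mul_of_nonneg_left _ (by positivity)
            apply hN₂
            intro q hq
            rw [mem_filter] at hq
            omega
        _ = X / (4 * C₀) := by
            have h1 : (1 + (C₁ : ℝ)) ≠ 0 := by positivity
            field_simp
    have hC : (X : ℝ) / (4 * C₀) + X / (4 * C₀) = X / (2 * C₀) := by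
      have := hC₀pos.ne'
      field_simp
      ring
    linarith
  have hcard : ((QF.biUnion bad ∪ range X₀).card : ℝ) < X := by
    have h1 : (QF.biUnion bad ∪ range X₀).card ≤ ∑ q ∈ QF, (bad q).card + X₀ := by
      refine le_trans (card_union_le _ _) ?_
      rw [card_range]
      exact Nat.add_le_add_right card_biUnion_le _
    have h2 : ((∑ q ∈ QF, (bad q).card : ℕ) : ℝ) ≤ C₀ * (X / (2 * C₀) + N₂) := by
      push_cast
      calc ∑ q ∈ QF, ((bad q).card : ℝ) ≤ ∑ q ∈ QF, C₀ * ((X : ℝ) / q + 1) := sum_le_sum hbad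
        _ = C₀ * ∑ q ∈ QF, ((X : ℝ) / q + 1) := by rw [mul_sum]
        _ ≤ C₀ * (X / (2 * C₀) + N₂) := mul_le_mul_of_nonneg_left hsum hC₀pos.le
    have h3 : (C₀ : ℝ) * (X / (2 * C₀) + N₂) = X / 2 + C₀ * N₂ := by
      have := hC₀pos.ne'
      field_simp
    have h4 : ((QF.biUnion bad ∪ range X₀).card : ℝ) ≤ X / 2 + C₀ * N₂ + X₀ := by
      calc ((QF.biUnion bad ∪ range X₀).card : ℝ)
          ≤ ((∑ q ∈ QF, (bad q).card + X₀ : ℕ) : ℝ) := by exact_mod_cast h1
        _ = ((∑ q ∈ QF, (bad q).card : ℕ) : ℝ) + X₀ := by push_cast; ring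
        _ ≤ X / 2 + C₀ * N₂ + X₀ := by linarith
    have h5 : (X : ℝ) = 2 * (C₀ * (N₂ + 1) + X₀) + 1 := by
      rw [hX]; push_cast; ring
    nlinarith
  have hcard' : (QF.biUnion bad ∪ range X₀).card < (range X).card := by
    rw [card_range]
    exact_mod_cast hcard
  obtain ⟨A, hAX, hA⟩ := exists_mem_notMem_of_card_lt_card hcard'
  rw [mem_union, not_or] at hA
  rw [mem_range] at hAX
  refine ⟨A, ?_, ?_⟩
  · by_contra hlt
    exact hA.2 (mem_range.2 (by omega))
  · intro q hqQ hqN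
    have hbound : ∀ s ≤ H, 1 + m * (A + s) ≤ C₁ * X := by
      intro s hs
      have h1 : m * (A + s) ≤ m * (X + H) := Nat.mul_le_mul_left _ (by omega)
      calc 1 + m * (A + s) ≤ 1 + m * (X + H) := by omega
        _ = 1 + m * X + m * H := by ring
        _ ≤ X + m * X + m * H * X + emax * X := by
            have : m * H * 1 ≤ m * H * X := Nat.mul_le_mul_left _ hX1
            have := Nat.zero_le (emax * X)
            omega
        _ = C₁ * X := by rw [hC₁]; ring
    have hnot : ¬ (q ≤ Y ∧ A ∈ bad q) := by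
      rintro ⟨hqY, hAb⟩
      apply hA.1
      rw [mem_biUnion]
      refine ⟨q, ?_, hAb⟩
      rw [hQF, mem_filter, mem_Ioc]
      exact ⟨⟨hqN, hqY⟩, hqQ⟩
    constructor
    · intro s hs hdvd
      apply hnot
      constructor
      · have h1 := Nat.le_of_dvd (by omega) hdvd
        have h2 := hbound s hs
        calc q ≤ C₁ * X := le_trans h1 h2
          _ ≤ (C₁ * X) ^ 2 := Nat.le_self_pow (by norm_num) _
      · simp only [bad, mem_union, mem_biUnion, mem_filter, mem_range]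
        exact Or.inl ⟨s, by omega, hAX, hdvd⟩
    · intro s hs e he hdvd
      apply hnot
      constructor
      · have h1 := Nat.le_of_dvd (by positivity) hdvd
        have h2 : 1 + m * (A + s) + e ≤ C₁ * X := by
          have h3 : m * (A + s) ≤ m * (X + H) := Nat.mul_le_mul_left _ (by omega)
          have h4 := hle e he
          have h5 : emax * 1 ≤ emax * X := Nat.mul_le_mul_left _ hX1
          have h6 : m * H * 1 ≤ m * H * X := Nat.mul_le_mul_left _ hX1
          calc 1 + m * (A + s) + e ≤ 1 + m * (X + H) + emax := by omega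
            _ = 1 + m * X + m * H + emax := by ring
            _ ≤ X + m * X + m * H * X + emax * X := by omega
            _ = C₁ * X := by rw [hC₁]; ring
        calc q ≤ (1 + m * (A + s)) ^ 2 + e ^ 2 := h1
          _ ≤ (1 + m * (A + s) + e) ^ 2 := by nlinarith [Nat.zero_le ((1 + m * (A + s)) * e)]
          _ ≤ (C₁ * X) ^ 2 := Nat.pow_le_pow_left h2 2
      · simp only [bad, mem_union, mem_biUnion, mem_filter, mem_range]
        exact Or.inr ⟨s, by omega, e, he, hAX, hdvd⟩

end Pool.Agent.Work.MP_0f91f8_co.Bohr
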