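import Mathlib

/-!
A uniform version of van der Waerden's theorem, from the Hales-Jewett theorem.
-/

namespace Pool.Agent.Work.MP_0f91f8_co.Bohr

open Combinatorics

lemma vdw (κ : Type*) [Finite κ] (L : ℕ) : ∃ H : ℕ, ∀ (C : ℕ → κ) (A : ℕ),
    ∃ b d : ℕ, A ≤ b ∧ 1 ≤ d ∧ b + L * d ≤ A + H ∧ ∀ x ≤ L, C (b + x * d) = C b := by
  classical
  obtain ⟨ι, _inst, hι⟩ := Line.exists_mono_in_high_dimension (Fin (L + 1)) κ
  refine ⟨L * Fintype.card ι, fun C A => ?_⟩
  obtain ⟨l, c, hl⟩ := hι (fun v => C (A + ∑ i, (v i : ℕ)))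
  set s : Finset ι := Finset.univ.filter (fun i => l.idxFun i = none) with hs
  set g : ι → ℕ := fun i => (((l.idxFun i).getD 0 : Fin (L + 1)) : ℕ) with hg
  have hgle : ∀ i, g i ≤ L := fun i => Nat.lt_succ_iff.1 (((l.idxFun i).getD 0).2)
  have hval : ∀ x : Fin (L + 1), ∑ i, ((l x i : Fin (L + 1)) : ℕ) = s.card * x + ∑ i ∈ sᶜ, g i := by
    intro x
    rw [← Finset.sum_add_sum_compl s]
    congr 1
    · rw [← smul_eq_mul, ← Finset.sum_const]
      apply Finset.sum_congr rfl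
      intro i hi
      rw [hs, Finset.mem_filter] at hi
      rw [l.apply_none _ _ hi.2]
    · apply Finset.sum_congr rfl
      intro i hi
      rw [hs, Finset.compl_filter, Finset.mem_filter] at hi
      obtain ⟨y, hy⟩ := Option.ne_none_iff_exists.mp hi.2
      simp only [hg, Line.coe_apply, ← hy, Option.getD]
  have hmain : ∀ x ≤ L, C (A + ∑ i ∈ sᶜ, g i + x * s.card) = c := by
    intro x hx
    have h1 := hl ⟨x, Nat.lt_succ_of_le hx⟩
    simp only at h1
    rw [hval] at h1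
    rw [← h1]
    congr 1
    simp only
    ring
  refine ⟨A + ∑ i ∈ sᶜ, g i, s.card, by omega, ?_, ?_, ?_⟩
  · refine Finset.card_pos.mpr ⟨l.proper.choose, ?_⟩
    rw [hs, Finset.mem_filter]
    exact ⟨Finset.mem_univ _, l.proper.choose_spec⟩
  · have h1 : ∑ i ∈ sᶜ, g i ≤ L * sᶜ.card := by
      calc ∑ i ∈ sᶜ, g i ≤ ∑ _i ∈ sᶜ, L := Finset.sum_le_sum fun i _ => hgle i
        _ = L * sᶜ.card := by rw [Finset.sum_const, smul_eq_mul, mul_comm]
    have h2 : L * sᶜ.card + L * s.card = L * Fintype.card ι := by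
      rw [← mul_add, add_comm, Finset.card_add_card_compl]
    omega
  · intro x hx
    rw [hmain x hx]
    have := hmain 0 (Nat.zero_le _)
    simpa using this.symm

end Pool.Agent.Work.MP_0f91f8_co.Bohr
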