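import Pool.Agent.Work.MP_0f91f8_co.BohrBasic
import Pool.Agent.Work.MP_0f91f8_co.BohrVdw
import Pool.Agent.Work.MP_0f91f8_co.BohrSieve

/-!
Infinitesimal multipliers from van der Waerden's theorem.
-/

open Filter Topology

namespace Pool.Agent.Work.MP_0f91f8_co.Bohr

variable {K : Type*} [CommGroup K]

lemma f_pow {f : ℕ → K} (hf : ∀ m n : ℕ, 0 < m → 0 < n → f (m * n) = f m * f n) {x : ℕ}
    (hx : 0 < x) (n : ℕ) : f (x ^ n) = f x ^ n := by
  induction n with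
  | zero => simpa using f_one hf
  | succ n ih => rw [pow_succ, hf _ _ (pow_pos hx n) hx, ih, pow_succ]

variable [TopologicalSpace K] [IsTopologicalGroup K] [CompactSpace K]

lemma exists_tau {f : ℕ → K} (hf : ∀ m n : ℕ, 0 < m → 0 < n → f (m * n) = f m * f n)
    {Q : Set ℕ} (hQ : ∀ q ∈ Q, q.Prime) (hs : Summable (wt Q))
    (V : Set K) (hV : V ∈ 𝓝 (1 : K)) (ε : ℚ) (hε : 0 < ε) (Λ : Finset ℚ) :
    ∃ τ : ℚ, 0 < τ ∧ τ < ε ∧ gq f τ ∈ V ∧ (∀ l ∈ Λ, Near f Q V ε (1 + l * τ)) ∧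
      (∀ l ∈ Λ, QU Q (1 + (l * τ) ^ 2)) := by
  classical
  obtain ⟨W, hW, hWV⟩ := exists_nhds_one_split hV
  obtain ⟨V₂, hV₂, hV₂W⟩ := exists_invmul W hW
  -- common denominator
  set r : ℕ := ∏ l ∈ Λ, l.den with hr
  have hrpos : 0 < r := Finset.prod_pos fun l _ => l.den_pos
  obtain ⟨e, he, hfe⟩ := exists_pow W hW (f r)
  set D : ℕ := r ^ e with hD
  have hDpos : 0 < D := pow_pos hrpos e
  have hfD : f D ∈ W := by rw [hD, f_pow hf hrpos]; exact hfe
  have hint : ∀ l ∈ Λ, ∃ j : ℤ, (j : ℚ) = l * D := by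
    intro l hl
    have h1 : l.den ∣ D := by
      have h2 : l.den ∣ r := Finset.dvd_prod_of_mem _ hl
      exact h2.trans (dvd_pow_self r (by omega))
    obtain ⟨k, hk⟩ := h1
    refine ⟨l.num * k, ?_⟩
    have h3 : (l.den : ℚ) ≠ 0 := by exact_mod_cast l.den_nz
    push_cast
    rw [hk]
    push_cast
    nth_rewrite 2 [← Rat.num_div_den l]
    field_simp
  choose! j hj using hint
  set J : ℕ := Λ.sup (fun l => (j l).natAbs) with hJ
  have hJle : ∀ l ∈ Λ, (j l).natAbs ≤ J := fun l hl => Finset.le_sup (f := fun l => (j l).natAbs) hl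
  obtain ⟨T, hTpos, hT⟩ := exists_net f V₂ hV₂
  set tm : ℕ := T.sup id with htm
  have htmle : ∀ t ∈ T, t ≤ tm := fun t ht => Finset.le_sup (f := id) ht
  set ℓ : ℕ := J * tm with hℓ
  obtain ⟨cells, χ, hχ⟩ := exists_cells V hV
  obtain ⟨H, hH⟩ := vdw cells (2 * (ℓ + 1))
  obtain ⟨N, -, hN⟩ := sieve hQ hs H (Λ.card * T.card * (H + 1)) 0
  set m : ℕ := ∏ q ∈ (Finset.range (N + 1)).filter (fun q => q ∈ Q), q with hm
  have hmpos : 0 < m := by
    apply Finset.prod_pos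
    intro q hq
    rw [Finset.mem_filter] at hq
    exact (hQ q hq.2).pos
  have hmdvd : ∀ q ∈ Q, q ≤ N → q ∣ m := by
    intro q hq hqN
    apply Finset.dvd_prod_of_mem (fun q => q)
    rw [Finset.mem_filter, Finset.mem_range]
    exact ⟨by omega, hq⟩
  have hmnd : ∀ q ∈ Q, N < q → ¬ q ∣ m := by
    intro q hq hqN hdvd
    rw [hm, Prime.dvd_finsetProd_iff (Nat.prime_iff.1 (hQ q hq))] at hdvd
    obtain ⟨p, hp, hqp⟩ := hdvd
    rw [Finset.mem_filter, Finset.mem_range] at hp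
    have := Nat.le_of_dvd (hQ p hp.2).pos hqp
    omega
  -- the exceptional offsets
  set E : Finset ℕ := ((Λ ×ˢ T) ×ˢ Finset.range (H + 1)).image
    (fun p => (j p.1.1).natAbs * p.1.2 * (m * p.2)) with hE
  have hEcard : E.card ≤ Λ.card * T.card * (H + 1) := by
    calc E.card ≤ _ := Finset.card_image_le
      _ = _ := by rw [Finset.card_product, Finset.card_product, Finset.card_range]
  -- size
  set lm : ℚ := 1 + ∑ l ∈ Λ, |l| with hlm
  have hlm1 : 1 ≤ lm := by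
    have : 0 ≤ ∑ l ∈ Λ, |l| := Finset.sum_nonneg fun l _ => abs_nonneg l
    linarith
  have hlmle : ∀ l ∈ Λ, |l| ≤ lm := by
    intro l hl
    have := Finset.single_le_sum (f := fun l : ℚ => |l|) (fun l _ => abs_nonneg l) hl
    linarith
  obtain ⟨X₀, hX₀⟩ := exists_nat_gt (((D * tm * (m * H) : ℕ) : ℚ) * lm / min ε 1)
  obtain ⟨A, hAX, hA⟩ := hN m hmnd E hEcard X₀
  obtain ⟨b', d₁, hAb, hd₁, hbH, hmono⟩ := hH (fun n => χ (f (1 + m * n))) A
  have hd₁H : d₁ ≤ H := by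
    have h0 : d₁ ≤ 2 * (ℓ + 1) * d₁ := Nat.le_mul_of_pos_left _ (by omega)
    omega
  set b : ℕ := b' + (ℓ + 1) * d₁ with hb
  set a : ℕ := 1 + m * b with ha
  set d : ℕ := m * d₁ with hd
  have hapos : 0 < a := by omega
  have hdpos : 0 < d := Nat.mul_pos hmpos (by omega)
  have hXb : X₀ ≤ b := by omega
  -- numbers without prime factors in `Q`
  have hfree : ∀ s ≤ H, ∀ q ∈ Q, ¬ q ∣ 1 + m * (A + s) := by
    intro s hsH q hq hdvd
    by_cases hqN : q ≤ N
    · have h1 := hmdvd q hq hqN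
      have h2 : q ∣ m * (A + s) := h1.mul_right _
      have h3 : q ∣ 1 := (Nat.dvd_add_left h2).1 hdvd
      exact (hQ q hq).one_lt.ne' (Nat.dvd_one.1 h3)
    · exact (hA q hq (by omega)).1 s hsH hdvd
  have hbs : ∃ s ≤ H, b = A + s := by
    refine ⟨b - A, ?_, by omega⟩
    have : (ℓ + 1) * d₁ ≤ 2 * (ℓ + 1) * d₁ := Nat.mul_le_mul_right _ (by omega)
    omega
  have hafree : ∀ q ∈ Q, ¬ q ∣ a := by
    obtain ⟨s, hsH, hs'⟩ := hbs
    intro q hq
    rw [ha, hs']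
    exact hfree s hsH q hq
  -- the terms of the progression
  have hterm : ∀ z : ℤ, z.natAbs ≤ ℓ → ∃ a' : ℕ, 0 < a' ∧ (∀ q ∈ Q, ¬ q ∣ a') ∧
      (a' : ℚ) = a + z * d ∧ (f a)⁻¹ * f a' ∈ V := by
    intro z hz
    have hz1 : -(ℓ : ℤ) ≤ z ∧ z ≤ ℓ := by
      have : |z| ≤ ℓ := by
        rw [Int.abs_eq_natAbs]
        exact_mod_cast hz
      exact abs_le.1 this
    obtain ⟨x, hx⟩ : ∃ x : ℕ, (x : ℤ) = ℓ + 1 + z := by
      refine ⟨(ℓ + 1 + z).toNat, ?_⟩
      rw [Int.toNat_of_nonneg (by linarith [hz1.1])]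
    have hxle : x ≤ 2 * (ℓ + 1) := by
      have : (x : ℤ) ≤ 2 * (ℓ + 1) := by rw [hx]; linarith [hz1.2]
      exact_mod_cast this
    refine ⟨1 + m * (b' + x * d₁), by omega, ?_, ?_, ?_⟩
    · have hs2 : x * d₁ ≤ 2 * (ℓ + 1) * d₁ := Nat.mul_le_mul_right _ hxle
      have := hfree (b' - A + x * d₁) (by omega)
      have he2 : A + (b' - A + x * d₁) = b' + x * d₁ := by omega
      rw [he2] at this
      exact this
    · have hxq : (x : ℚ) = ℓ + 1 + z := by exact_mod_cast congrArg (fun y : ℤ => (y : ℚ)) hx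
      rw [ha, hb, hd]
      push_cast
      rw [hxq]
      ring
    · apply hχ
      have h1 := hmono x hxle
      have h2 := hmono (ℓ + 1) (by omega)
      rw [ha, hb, h2, h1]
  -- choice of the multiplier
  obtain ⟨e', he', hfe'⟩ := exists_pow V₂ hV₂ (f d)
  obtain ⟨t, htT, ht⟩ := hT (a * d ^ (e' - 1)) (Nat.mul_pos hapos (pow_pos hdpos _))
  have htpos := hTpos t htT
  have htle := htmle t htT
  set τ : ℚ := ((D * t * d : ℕ) : ℚ) / (a : ℚ) with hτ
  have haq : (0 : ℚ) < a := by exact_mod_cast hapos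
  have hnumpos : 0 < D * t * d := Nat.mul_pos (Nat.mul_pos hDpos htpos) hdpos
  have hτpos : 0 < τ := by
    apply div_pos _ haq
    exact_mod_cast hnumpos
  have hτsmall : lm * τ < min ε 1 := by
    have hmin : (0 : ℚ) < min ε 1 := lt_min hε one_pos
    rw [div_lt_iff₀ hmin] at hX₀
    rw [hτ, mul_div_assoc', div_lt_iff₀ haq]
    have h1 : D * t * d ≤ D * tm * (m * H) := by
      rw [hd]
      exact Nat.mul_le_mul (Nat.mul_le_mul_left _ htle) (Nat.mul_le_mul_left _ hd₁H)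
    have h2 : ((D * t * d : ℕ) : ℚ) ≤ ((D * tm * (m * H) : ℕ) : ℚ) := by exact_mod_cast h1
    have h3 : X₀ ≤ a := by
      have : b ≤ m * b := Nat.le_mul_of_pos_left _ hmpos
      omega
    have h4 : (X₀ : ℚ) ≤ a := by exact_mod_cast h3
    calc lm * ((D * t * d : ℕ) : ℚ) ≤ lm * ((D * tm * (m * H) : ℕ) : ℚ) :=
          mul_le_mul_of_nonneg_left h2 (by linarith)
      _ = ((D * tm * (m * H) : ℕ) : ℚ) * lm := by ring
      _ < X₀ * min ε 1 := hX₀
      _ ≤ a * min ε 1 := mul_le_mul_of_nonneg_right h4 hmin.le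
      _ = min ε 1 * a := by ring
  have hlτ : ∀ l ∈ Λ, |l * τ| < min ε 1 := by
    intro l hl
    rw [abs_mul, abs_of_pos hτpos]
    exact lt_of_le_of_lt (mul_le_mul_of_nonneg_right (hlmle l hl) hτpos.le) hτsmall
  have hlval : ∀ l ∈ Λ, l * τ = ((j l * t : ℤ) : ℚ) * d / a := by
    intro l hl
    rw [hτ]
    push_cast
    rw [hj l hl]
    ring
  refine ⟨τ, hτpos, ?_, ?_, ?_, ?_⟩
  · calc τ = 1 * τ := (one_mul τ).symm
      _ ≤ lm * τ := mul_le_mul_of_nonneg_right hlm1 hτpos.le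
      _ < min ε 1 := hτsmall
      _ ≤ ε := min_le_left _ _
  · rw [hτ, gq_div hf hnumpos hapos, hf _ _ (Nat.mul_pos hDpos htpos) hdpos, hf _ _ hDpos htpos]
    have h1 := hV₂W _ ht _ hfe'
    have h2 : ((f t)⁻¹ * f (a * d ^ (e' - 1)))⁻¹ * f d ^ e' = f t * f d * (f a)⁻¹ := by
      rw [hf _ _ hapos (pow_pos hdpos _), f_pow hf hdpos]
      have h3 : f d ^ e' = f d ^ (e' - 1) * f d := by
        rw [← pow_succ]; congr 1; omega
      rw [h3]
      rw [mul_inv, inv_inv, mul_inv]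
      have : f t * ((f a)⁻¹ * (f d ^ (e' - 1))⁻¹) * (f d ^ (e' - 1) * f d) =
          f t * (f a)⁻¹ * ((f d ^ (e' - 1))⁻¹ * f d ^ (e' - 1)) * f d := by
        simp only [mul_assoc]
      rw [this, inv_mul_cancel, mul_one]
      rw [mul_assoc, mul_comm (f a)⁻¹, ← mul_assoc]
    rw [h2] at h1
    have h3 := hWV _ hfD _ h1
    have h4 : f D * f t * f d * (f a)⁻¹ = f D * (f t * f d * (f a)⁻¹) := by
      simp only [mul_assoc]
    rw [h4]
    exact h3
  · intro l hl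
    have hz : (j l * t).natAbs ≤ ℓ := by
      rw [Int.natAbs_mul, Int.natAbs_natCast, hℓ]
      exact Nat.mul_le_mul (hJle l hl) htle
    obtain ⟨a', ha'pos, ha'free, ha'val, ha'V⟩ := hterm _ hz
    have hval : 1 + l * τ = (a' : ℚ) / a := by
      rw [hlval l hl, ha'val]
      field_simp
    have hpos : 0 < 1 + l * τ := by
      rw [hval]
      exact div_pos (by exact_mod_cast ha'pos) haq
    refine ⟨hpos, ⟨a', a, ha'pos, hapos, ha'free, hafree, hval⟩, ?_, ?_⟩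
    · rw [hval, gq_div hf ha'pos hapos, mul_comm]
      exact ha'V
    · have h1 : 1 + l * τ - 1 = l * τ := by ring
      rw [h1]
      exact lt_of_lt_of_le (hlτ l hl) (min_le_left _ _)
  · intro l hl
    set e₀ : ℕ := (j l).natAbs * t * (m * d₁) with he₀
    have he₀E : e₀ ∈ E := by
      rw [hE, Finset.mem_image]
      refine ⟨((l, t), d₁), ?_, rfl⟩
      rw [Finset.mem_product, Finset.mem_product, Finset.mem_range]
      exact ⟨⟨hl, htT⟩, by omega⟩
    refine ⟨a ^ 2 + e₀ ^ 2, a ^ 2, by positivity, by positivity, ?_, ?_, ?_⟩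
    · intro q hq hdvd
      by_cases hqN : q ≤ N
      · have h1 : q ∣ e₀ := by
          rw [he₀]
          exact ((hmdvd q hq hqN).mul_right d₁).mul_left _
        have h2 : q ∣ e₀ ^ 2 := dvd_pow h1 (by norm_num)
        have h3 : q ∣ a ^ 2 := (Nat.dvd_add_left h2).1 hdvd
        exact hafree q hq ((hQ q hq).dvd_of_dvd_pow h3)
      · obtain ⟨s, hsH, hs'⟩ := hbs
        refine (hA q hq (by omega)).2 s hsH e₀ he₀E ?_
        rw [← hs', ← ha]
        exact hdvd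
    · intro q hq hdvd
      exact hafree q hq ((hQ q hq).dvd_of_dvd_pow hdvd)
    · have h1 : (l * τ) ^ 2 = ((e₀ : ℚ) / a) ^ 2 := by
        rw [hlval l hl, he₀, hd]
        push_cast
        rw [div_pow, div_pow]
        congr 1
        have h2 : (((j l).natAbs : ℕ) : ℚ) ^ 2 = (j l : ℚ) ^ 2 := by
          have h3 : (((j l).natAbs : ℕ) : ℤ) ^ 2 = (j l) ^ 2 := Int.natAbs_sq _
          have h4 := congrArg (fun z : ℤ => (z : ℚ)) h3
          simp only [Int.cast_pow, Int.cast_natCast] at h4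
          exact h4
        calc ((j l : ℚ) * t * (m * d₁)) ^ 2 = (j l : ℚ) ^ 2 * (t * (m * d₁)) ^ 2 := by ring
          _ = (((j l).natAbs : ℕ) : ℚ) ^ 2 * (t * (m * d₁)) ^ 2 := by rw [h2]
          _ = ((((j l).natAbs : ℕ) : ℚ) * t * (m * d₁)) ^ 2 := by ring
      rw [h1]
      push_cast
      field_simp

end Pool.Agent.Work.MP_0f91f8_co.Bohr
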