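import Mathlib

namespace Pool.Agent.Work.MP_0f91f8_co

/-- Pythagorean triples all of whose members have, in base `b`, prescribed lowest `L` digits and
prescribed highest digits. -/
theorem triple_exists (b L w j l : ℕ) (hb : 2 ≤ b) (hw : w < b ^ L) (hj : L + 1 ≤ j)
    (hl : 4 * j ≤ l) :
    ∃ E0 : ℕ, ∀ e, E0 ≤ e → ∃ X Y Z : ℕ, 0 < X ∧ 0 < Y ∧ 0 < Z ∧ X ^ 2 + Y ^ 2 = Z ^ 2 ∧
      X % b ^ (j + L) = b ^ j * w ∧ X / b ^ (e - (l - j)) = w ∧
      Y % b ^ L = w ∧ Y / b ^ e = w ∧ Z % b ^ L = w ∧ Z / b ^ e = w := by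
  have hb0 : 0 < b := by omega
  set B := b ^ L with hB
  have hBpos : 0 < B := by positivity
  -- n0
  obtain ⟨n0, hn0⟩ : ∃ n0, 2 * n0 = b * (1 + B) := by
    have : Even (b * (1 + B)) := by
      rcases Nat.even_or_odd b with h | h
      · exact h.mul_right _
      · have : Odd B := h.pow
        exact (Odd.add_odd odd_one this).mul_left _
    obtain ⟨n0, h⟩ := this
    exact ⟨n0, by omega⟩
  have hn0pos : 0 < n0 := by
    rcases Nat.eq_zero_or_pos n0 with h | h
    · rw [h] at hn0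
      have : 0 < b * (1 + B) := by positivity
      omega
    · exact h
  obtain ⟨j', rfl⟩ : ∃ j', j = j' + 1 := ⟨j - 1, by omega⟩
  have hLj' : L ≤ j' := by omega
  set n := b ^ j' * n0 with hn
  have hnpos : 0 < n := by positivity
  have h2n : 2 * n = b ^ (j' + 1) * (1 + B) := by
    rw [hn, pow_succ]
    calc 2 * (b ^ j' * n0) = b ^ j' * (2 * n0) := by ring
      _ = _ := by rw [hn0]; ring
  set C := b ^ l * (1 + B) with hC
  set m := C + 1 with hm
  have hBn : B ∣ n := Dvd.dvd.mul_right (pow_dvd_pow b hLj') _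
  have hLl : L ≤ l := by omega
  have hBC : B ∣ C := Dvd.dvd.mul_right (pow_dvd_pow b hLl) _
  have hBj : B ≤ b ^ (j' + 1) := Nat.pow_le_pow_right hb0 (by omega)
  have hBl : 2 * B ≤ b ^ l := by
    calc 2 * B ≤ b * B := Nat.mul_le_mul_right _ hb
      _ = b ^ (L + 1) := by rw [pow_succ]; ring
      _ ≤ b ^ l := Nat.pow_le_pow_right hb0 (by omega)
  have hCB : 2 * B ≤ C := by
    calc 2 * B ≤ b ^ l := hBl
      _ ≤ b ^ l * (1 + B) := Nat.le_mul_of_pos_right _ (by omega)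
  -- n ^ 2 ≤ m
  have hn2 : n ^ 2 ≤ C := by
    have h1 : (2 * n) ^ 2 = (b ^ (j' + 1)) ^ 2 * (1 + B) ^ 2 := by rw [h2n]; ring
    have h2 : 1 + B ≤ 2 * b ^ (j' + 1) := by
      have : 1 ≤ b ^ (j' + 1) := Nat.one_le_pow _ _ hb0
      omega
    have h3 : b ^ (4 * (j' + 1)) ≤ b ^ l := Nat.pow_le_pow_right hb0 hl
    have h4 : b ^ (4 * (j' + 1)) = (b ^ (j' + 1)) ^ 4 := by rw [mul_comm, pow_mul]
    set β := b ^ (j' + 1) with hβ
    have hβ1 : 1 ≤ β := Nat.one_le_pow _ _ hb0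
    have h5 : 4 * n ^ 2 ≤ β ^ 2 * ((1 + B) * (2 * β)) := by
      calc 4 * n ^ 2 = (2 * n) ^ 2 := by ring
        _ = β ^ 2 * (1 + B) ^ 2 := h1
        _ = β ^ 2 * ((1 + B) * (1 + B)) := by ring
        _ ≤ β ^ 2 * ((1 + B) * (2 * β)) := by gcongr
    have h6 : β ^ 2 * ((1 + B) * (2 * β)) ≤ 4 * C := by
      calc β ^ 2 * ((1 + B) * (2 * β)) = 2 * (β ^ 3 * 1) * (1 + B) := by ring
        _ ≤ 4 * (β ^ 3 * β) * (1 + B) := by gcongr <;> omega
        _ = 4 * (β ^ 4 * (1 + B)) := by ring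
        _ ≤ 4 * (b ^ l * (1 + B)) := by
            rw [← h4]
            exact Nat.mul_le_mul_left _ (Nat.mul_le_mul_right _ h3)
    omega
  have hnm : n < m := by
    have : n * 1 ≤ n * n := Nat.mul_le_mul_left n hnpos
    nlinarith
  -- P and Pz
  set P := m * C with hP
  set Pz := m ^ 2 + n ^ 2 with hPz
  have hPpos : 0 < P := by positivity
  have hdiff : Pz = P + (m + n ^ 2) := by rw [hPz, hP, hm]; ring
  refine ⟨2 * B * P * Pz + l, ?_⟩
  intro e he
  set t0 := w * b ^ e / P with ht0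
  set κ := B * (t0 / B + 1) + w with hκ
  have hκpos : 0 < κ := by positivity
  have hκB : κ % B = w := by
    rw [hκ, Nat.mul_add_mod, Nat.mod_eq_of_lt hw]
  have hκlow : t0 + 1 ≤ κ := by
    have : t0 < B * (t0 / B + 1) := Nat.lt_mul_div_succ t0 hBpos
    omega
  have hκup : κ ≤ t0 + 2 * B := by
    have : B * (t0 / B) ≤ t0 := Nat.mul_div_le t0 B
    have h2 : B * (t0 / B + 1) = B * (t0 / B) + B := by ring
    omega
  have hlow : w * b ^ e ≤ κ * P := by
    have : w * b ^ e < P * (t0 + 1) := Nat.lt_mul_div_succ _ hPpos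
    calc w * b ^ e ≤ P * (t0 + 1) := this.le
      _ ≤ P * κ := Nat.mul_le_mul_left _ hκlow
      _ = κ * P := by ring
  have ht0P : t0 * P ≤ w * b ^ e := Nat.div_mul_le_self _ _
  have hbe : 2 * B * P * Pz < b ^ e := by
    calc 2 * B * P * Pz ≤ e := by omega
      _ < b ^ e := Nat.lt_pow_self (by omega)
  have hup : κ * Pz < (w + 1) * b ^ e := by
    have h1 : (κ * Pz) * P ≤ (w * b ^ e) * Pz + 2 * B * P * Pz := by
      calc (κ * Pz) * P ≤ ((t0 + 2 * B) * Pz) * P := by gcongr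
        _ = (t0 * P) * Pz + 2 * B * P * Pz := by ring
        _ ≤ (w * b ^ e) * Pz + 2 * B * P * Pz := by gcongr
    have h2 : w * (m + n ^ 2) + 1 ≤ P := by
      have h3 : w + 1 ≤ B := hw
      have h4 : m + n ^ 2 ≤ 2 * m := by omega
      have h5 : 2 * B ≤ C := hCB
      calc w * (m + n ^ 2) + 1 ≤ w * (2 * m) + 1 := by gcongr
        _ ≤ (w + 1) * (2 * m) := by
            have : 1 ≤ 2 * m := by omega
            nlinarith
        _ ≤ B * (2 * m) := by gcongr
        _ = m * (2 * B) := by ring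
        _ ≤ m * C := by gcongr
        _ = P := rfl
    have h3 : (κ * Pz) * P < ((w + 1) * b ^ e) * P := by
      calc (κ * Pz) * P ≤ (w * b ^ e) * Pz + 2 * B * P * Pz := h1
        _ < (w * b ^ e) * Pz + b ^ e := by omega
        _ = w * b ^ e * P + b ^ e * (w * (m + n ^ 2) + 1) := by rw [hdiff]; ring
        _ ≤ w * b ^ e * P + b ^ e * P := by gcongr
        _ = ((w + 1) * b ^ e) * P := by ring
    exact lt_of_mul_lt_mul_right h3 (Nat.zero_le _)
  have hl' : l - (j' + 1) ≤ e := by omega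
  refine ⟨κ * (2 * m * n), κ * (m ^ 2 - n ^ 2), κ * Pz, by positivity, ?_, by positivity, ?_, ?_,
    ?_, ?_, ?_, ?_, ?_⟩
  · have : n ^ 2 < m ^ 2 := Nat.pow_lt_pow_left hnm (by norm_num)
    have : 0 < m ^ 2 - n ^ 2 := Nat.sub_pos_of_lt this
    positivity
  · have h : n ^ 2 ≤ m ^ 2 := (Nat.pow_lt_pow_left hnm (by norm_num)).le
    obtain ⟨D, hD⟩ := Nat.exists_eq_add_of_le h
    rw [hD, Nat.add_sub_cancel_left, hPz, hD]
    have : (κ * (2 * m * n)) ^ 2 = κ ^ 2 * (4 * (m ^ 2) * n ^ 2) := by ring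
    rw [this, hD]
    ring
  · -- X % b ^ (j + L)
    have h1 : κ * (2 * m * n) = b ^ (j' + 1) * (κ * m * (1 + B)) := by
      calc κ * (2 * m * n) = κ * m * (2 * n) := by ring
        _ = _ := by rw [h2n]; ring
    rw [h1, pow_add b (j' + 1) L, Nat.mul_mod_mul_left]
    congr 1
    obtain ⟨C', hC'⟩ := hBC
    have : κ * m * (1 + B) = κ + B * (κ * C' + κ * m) := by
      rw [hm, hC']; ring
    rw [← hB, this, Nat.add_mul_mod_self_left, hκB]
  · -- X / b ^ ..
    have h1 : κ * (2 * m * n) * b ^ (l - (j' + 1)) = κ * P := by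
      calc κ * (2 * m * n) * b ^ (l - (j' + 1)) = κ * m * (2 * n) * b ^ (l - (j' + 1)) := by ring
        _ = κ * m * (1 + B) * (b ^ (j' + 1) * b ^ (l - (j' + 1))) := by rw [h2n]; ring
        _ = κ * m * (1 + B) * b ^ l := by
            rw [← pow_add]; congr 2; omega
        _ = κ * P := by rw [hP, hC]; ring
    have h2 : b ^ e = b ^ (e - (l - (j' + 1))) * b ^ (l - (j' + 1)) := by
      rw [← pow_add]; congr 1; omega
    have hpos2 : 0 < b ^ (l - (j' + 1)) := by positivity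
    have hPP : P ≤ Pz := by omega
    rw [Nat.div_eq_iff (by positivity)]
    constructor
    · have : w * b ^ (e - (l - (j' + 1))) * b ^ (l - (j' + 1)) ≤
          κ * (2 * m * n) * b ^ (l - (j' + 1)) := by
        rw [h1, mul_assoc, ← h2]; exact hlow
      exact le_of_mul_le_mul_right this hpos2
    · have h3 : κ * (2 * m * n) * b ^ (l - (j' + 1)) <
          (w + 1) * b ^ (e - (l - (j' + 1))) * b ^ (l - (j' + 1)) := by
        rw [h1, mul_assoc, ← h2]
        exact lt_of_le_of_lt (Nat.mul_le_mul_left _ hPP) hup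
      have h4 := lt_of_mul_lt_mul_right h3 (Nat.zero_le _)
      have h5 : (w + 1) * b ^ (e - (l - (j' + 1))) =
        w * b ^ (e - (l - (j' + 1))) + b ^ (e - (l - (j' + 1))) := by ring
      omega
  · -- Y % B
    have h : n ^ 2 ≤ m ^ 2 := (Nat.pow_lt_pow_left hnm (by norm_num)).le
    obtain ⟨C', hC'⟩ := hBC
    obtain ⟨n', hn'⟩ := hBn
    have hY : κ * (m ^ 2 - n ^ 2) + κ * n ^ 2 = κ * m ^ 2 := by
      rw [← Nat.mul_add]; congr 1; omega
    have h1 : (κ * (m ^ 2 - n ^ 2) + κ * n ^ 2) % B = κ % B := by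
      rw [hY, hm, hC']
      have : κ * (B * C' + 1) ^ 2 = κ + B * (κ * C' * (B * C') + 2 * κ * C') := by ring
      rw [this, Nat.add_mul_mod_self_left]
    have h2 : κ * n ^ 2 = B * (κ * n' * n) := by
      calc κ * n ^ 2 = κ * n * n := by ring
        _ = κ * (B * n') * n := by rw [← hn']
        _ = _ := by ring
    rw [h2, Nat.add_mul_mod_self_left] at h1
    rw [h1, hκB]
  · -- Y / b^e
    have h : n ^ 2 ≤ m ^ 2 := (Nat.pow_lt_pow_left hnm (by norm_num)).le
    have h1 : P ≤ m ^ 2 - n ^ 2 := by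
      have : P + m = m ^ 2 := by rw [hP, hm]; ring
      omega
    have h2 : m ^ 2 - n ^ 2 ≤ Pz := by omega
    rw [Nat.div_eq_iff (by positivity)]
    constructor
    · exact hlow.trans (Nat.mul_le_mul_left _ h1)
    · have h3 : κ * (m ^ 2 - n ^ 2) < (w + 1) * b ^ e :=
        lt_of_le_of_lt (Nat.mul_le_mul_left _ h2) hup
      have h5 : (w + 1) * b ^ e = w * b ^ e + b ^ e := by ring
      omega
  · -- Z % B
    obtain ⟨C', hC'⟩ := hBC
    obtain ⟨n', hn'⟩ := hBn
    have : κ * Pz = κ + B * (κ * C' * (B * C') + 2 * κ * C' + κ * n' * n) := by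
      have h2 : n ^ 2 = B * (n' * n) := by
        calc n ^ 2 = n * n := by ring
          _ = (B * n') * n := by rw [← hn']
          _ = _ := by ring
      rw [hPz, h2, hm, hC']
      ring
    rw [this, Nat.add_mul_mod_self_left, hκB]
  · have hPP : P ≤ Pz := by omega
    rw [Nat.div_eq_iff (by positivity)]
    constructor
    · exact hlow.trans (Nat.mul_le_mul_left _ hPP)
    · have h5 : (w + 1) * b ^ e = w * b ^ e + b ^ e := by ring
      omega

end Pool.Agent.Work.MP_0f91f8_co
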