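import Mathlib

namespace Pool.Agent.Work.MP_0f91f8_co

variable {b : ℕ} [NeZero b] {Q : Type*}

/-- Run of a level-dependent automaton: starting at level `h` in state `q`, read the lowest `ℓ`
digits of `N` in base `b`, lowest digit first. -/
def run (S : ℕ → Fin b → Q → Q) : ℕ → ℕ → ℕ → Q → Q
  | _, 0, _, q => q
  | h, ℓ + 1, N, q => run S (h + 1) ℓ (N / b) (S h (Fin.ofNat b N) q)

theorem run_zero (S : ℕ → Fin b → Q → Q) (h N : ℕ) (q : Q) : run S h 0 N q = q := rfl

theorem run_succ (S : ℕ → Fin b → Q → Q) (h ℓ N : ℕ) (q : Q) :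
    run S h (ℓ + 1) N q = run S (h + 1) ℓ (N / b) (S h (Fin.ofNat b N) q) := rfl

theorem run_add (S : ℕ → Fin b → Q → Q) (h ℓ₁ ℓ₂ N : ℕ) (q : Q) :
    run S h (ℓ₁ + ℓ₂) N q = run S (h + ℓ₁) ℓ₂ (N / b ^ ℓ₁) (run S h ℓ₁ N q) := by
  induction ℓ₁ generalizing h N q with
  | zero => simp [run_zero]
  | succ ℓ ih =>
    have e1 : ℓ + 1 + ℓ₂ = (ℓ + ℓ₂) + 1 := by ring
    rw [e1, run_succ, ih, run_succ, Nat.div_div_eq_div_mul, pow_succ, mul_comm b]
    congr 1
    ring

theorem run_mod (S : ℕ → Fin b → Q → Q) (h ℓ N N' : ℕ) (hN : N % b ^ ℓ = N' % b ^ ℓ) (q : Q) :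
    run S h ℓ N q = run S h ℓ N' q := by
  induction ℓ generalizing h N N' q with
  | zero => rfl
  | succ ℓ ih =>
    rw [run_succ, run_succ]
    have h1 : N % b = N' % b := by
      have h2 : b ∣ b ^ (ℓ + 1) := dvd_pow_self b (Nat.succ_ne_zero ℓ)
      rw [← Nat.mod_mod_of_dvd N h2, ← Nat.mod_mod_of_dvd N' h2, hN]
    have h3 : (N / b) % b ^ ℓ = (N' / b) % b ^ ℓ := by
      have : b ^ (ℓ + 1) = b * b ^ ℓ := by ring
      rw [this] at hN
      rw [← Nat.mod_mul_right_div_self, ← Nat.mod_mul_right_div_self, hN]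
    have h4 : Fin.ofNat b N = Fin.ofNat b N' := by
      apply Fin.ext
      simpa [Fin.ofNat] using h1
    rw [h4]
    exact ih _ _ _ h3 _

theorem run_congr (S S' : ℕ → Fin b → Q → Q) (h h' ℓ : ℕ)
    (hS : ∀ i < ℓ, S (h + i) = S' (h' + i)) (N : ℕ) (q : Q) :
    run S h ℓ N q = run S' h' ℓ N q := by
  induction ℓ generalizing h h' N q with
  | zero => rfl
  | succ ℓ ih =>
    rw [run_succ, run_succ]
    have h0 : S h = S' h' := by simpa using hS 0 (Nat.succ_pos _)
    rw [h0]
    apply ih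
    intro i hi
    have := hS (i + 1) (by omega)
    have e1 : h + (i + 1) = h + 1 + i := by ring
    have e2 : h' + (i + 1) = h' + 1 + i := by ring
    rw [e1, e2] at this
    exact this

/-- A uniform exponent killing all injective self-maps of a finite set. -/
theorem exists_exponent [Finite Q] (I : Set Q) : ∃ n : ℕ, 0 < n ∧ ∀ f : Q → Q,
    Set.MapsTo f I I → Set.InjOn f I → ∀ z ∈ I, f^[n] z = z := by
  classical
  have : Fintype I := Fintype.ofFinite I
  refine ⟨Fintype.card (Equiv.Perm I), Fintype.card_pos, ?_⟩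
  intro f hm hi z hz
  have hinj : Function.Injective (hm.restrict f I I) := by
    intro x y hxy
    apply Subtype.ext
    exact hi x.2 y.2 (congrArg Subtype.val hxy)
  let σ : Equiv.Perm I := Equiv.ofBijective _ (Finite.injective_iff_bijective.mp hinj)
  have hσ : ∀ x : I, ((σ x : I) : Q) = f x := fun x => rfl
  have hpow : ∀ (k : ℕ) (x : I), (((σ ^ k) x : I) : Q) = f^[k] x := by
    intro k
    induction k with
    | zero => intro x; rfl
    | succ k ih =>
      intro x
      rw [pow_succ, Equiv.Perm.mul_apply, ih, Function.iterate_succ_apply, hσ]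
  have h1 := hpow (Fintype.card (Equiv.Perm I)) ⟨z, hz⟩
  rw [pow_card_eq_one] at h1
  exact h1.symm

end Pool.Agent.Work.MP_0f91f8_co
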