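import Pool.Agent.Work.MP_0f91f8_co.Ultra
import Pool.Agent.Work.MP_0f91f8_co.Numbers
import Pool.Agent.Work.MP_0f91f8_co.Run

namespace Pool.Agent.Work.MP_0f91f8_co

open Filter

variable {b : ℕ} [NeZero b] {Q : Type*} [Finite Q] {β : Type*}

/-- The core statement for a recurrent automaton, when the minimal rank is attained at level
`0`. -/
theorem core (hb : 2 ≤ b) (p : Ultrafilter ℕ)
    (hpK : ∀ K : ℕ, ∀ᶠ a in (p : Filter ℕ), K ≤ a)
    (hpadd : ∀ P : ℕ → Prop, (∀ᶠ a in (p : Filter ℕ), P a) →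
      ∀ᶠ a in (p : Filter ℕ), ∀ᶠ a' in (p : Filter ℕ), P (a + a'))
    (S : ℕ → Fin b → Q → Q) (st : ℕ → Q) (out : ℕ → Q → β)
    (hst : ∀ h ℓ, run S h ℓ 0 (st h) = st (h + ℓ))
    (hrec : ∀ H, ∀ᶠ a in (p : Filter ℕ), ∀ h ≤ H,
      S (h + a) = S h ∧ st (h + a) = st h ∧ out (h + a) = out h)
    (L w : ℕ) (hw : w < b ^ L)
    (hmin : ∀ h ℓ N, (Set.range (run S 0 L w)).ncard ≤ (Set.range (run S h ℓ N)).ncard) :
    ∃ X Y Z hX hZ : ℕ, 0 < X ∧ 0 < Y ∧ 0 < Z ∧ X ^ 2 + Y ^ 2 = Z ^ 2 ∧
      X < b ^ hX ∧ Y < b ^ hZ ∧ Z < b ^ hZ ∧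
      out hX (run S 0 hX X (st 0)) = out hZ (run S 0 hZ Y (st 0)) ∧
      out hZ (run S 0 hZ Y (st 0)) = out hZ (run S 0 hZ Z (st 0)) := by
  classical
  have hb0 : 0 < b := by omega
  -- limits of zero runs
  have hη : ∀ h, ∃ η : Q → Q, ∀ᶠ D in (p : Filter ℕ), run S h (D - h) 0 = η := by
    intro h
    exact exists_lim p (fun D => run S h (D - h) 0)
  choose η hη using hη
  -- runs from recurrent levels
  have hrun : ∀ a H, (∀ h ≤ H, S (h + a) = S h) → ∀ h ℓ, h + ℓ ≤ H + 1 →
      run S (h + a) ℓ = run S h ℓ := by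
    intro a H hH h ℓ hℓ
    funext N q
    apply run_congr
    intro i hi
    have := hH (h + i) (by omega)
    rw [← this]
    congr 1
    ring
  -- `η 0` absorbs
  have hη0 : ∀ h q, η 0 (η h q) = η h q := by
    intro h q
    have h1 := hpadd _ (hη h)
    have h2 := h1.and (hη 0)
    obtain ⟨a, ha1, ha2⟩ := h2.exists
    have h3 := (ha1.and ((hη h).and ((hrec a).and (hpK h)))).exists
    obtain ⟨a', hb1, hb2, hb3, hb4⟩ := h3
    have e : a + a' - h = (a' - h) + a := by omega
    have h5 : run S h (a + a' - h) 0 q = η h q := by rw [hb1]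
    rw [e, run_add, Nat.zero_div] at h5
    have e2 : h + (a' - h) = 0 + a' := by omega
    rw [e2, hrun a' a (fun x hx => (hb3 x hx).1) 0 a (by omega), hb2] at h5
    have ha3 : run S 0 a 0 = η 0 := by simpa using ha2
    rw [ha3] at h5
    exact h5
  -- the parameter j
  obtain ⟨j, hjL, hj0, hjgood⟩ : ∃ j, L + 1 ≤ j ∧ run S 0 j 0 = η 0 ∧ ∀ h ≤ L,
      S (h + j) = S h ∧ st (h + j) = st h ∧ out (h + j) = out h := by
    obtain ⟨j, h1, h2, h3⟩ := ((hpK (L + 1)).and ((hη 0).and (hrec L))).exists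
    exact ⟨j, h1, by simpa using h2, h3⟩
  have hη0st : η 0 (st 0) = st 0 := by
    rw [← hj0, hst]
    have := (hjgood 0 (Nat.zero_le _)).2.1
    simpa using this
  -- the sequence z
  have hnext : ∀ m : ℕ, ∃ m', m + 3 * j ≤ m' ∧ ∀ h ≤ L, S (h + m') = S h ∧ out (h + m') = out h := by
    intro m
    obtain ⟨m', h1, h2⟩ := ((hpK (m + 3 * j)).and (hrec L)).exists
    exact ⟨m', h1, fun h hh => ⟨(h2 h hh).1, (h2 h hh).2.2⟩⟩
  choose nxt hnxt1 hnxt2 using hnext
  let z : ℕ → ℕ := fun i => Nat.rec 0 (fun _ m => nxt m) i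
  have hz_succ : ∀ i, z (i + 1) = nxt (z i) := fun i => rfl
  have hzgood : ∀ i, ∀ h ≤ L, S (h + z i) = S h ∧ out (h + z i) = out h := by
    intro i
    cases i with
    | zero => intro h _; exact ⟨rfl, rfl⟩
    | succ i => rw [hz_succ]; exact hnxt2 _
  have hzstep : ∀ i, z i + 3 * j ≤ z (i + 1) := by
    intro i; rw [hz_succ]; exact hnxt1 _
  have hzmono : ∀ i k, i < k → z i + 3 * j ≤ z k := by
    intro i k hik
    induction k with
    | zero => omega
    | succ k ih =>
      have := hzstep k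
      rcases Nat.lt_succ_iff_lt_or_eq.mp hik with h | h
      · have := ih h; omega
      · rw [h]; omega
  have hη' : ∀ h, ∃ v : Q → Q, ∀ᶠ a in (p : Filter ℕ), η (h + a) = v := by
    intro h
    exact exists_lim p (fun a => η (h + a))
  choose η' hη' using hη'
  obtain ⟨i, i', hii, hηii⟩ : ∃ i i' : ℕ, i < i' ∧ η' (L + z i) = η' (L + z i') := by
    obtain ⟨i, i', hne, h⟩ := Finite.exists_ne_map_eq_of_infinite (fun i : ℕ => η' (L + z i))
    rcases lt_or_gt_of_ne hne with h1 | h1
    · exact ⟨i, i', h1, h⟩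
    · exact ⟨i', i, h1, h.symm⟩
  have hzii := hzmono i i' hii
  obtain ⟨E0, hE0⟩ := triple_exists b L w j (z i' - z i + j) hb hw hjL (by omega)
  -- the parameter a
  obtain ⟨a, haE, ha1, ha2, ha3⟩ := ((hpK (E0 + j + L)).and ((hrec (L + z i')).and
    ((hη' (L + z i)).and (hη' (L + z i'))))).exists
  set t' := a + z i with ht'
  set t := a + z i' with ht
  have hrest : t - (z i' - z i + j - j) = t' := by omega
  obtain ⟨X, Y, Z, hX, hY, hZ, hXYZ, hX1, hX2, hY1, hY2, hZ1, hZ2⟩ := hE0 t (by omega)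
  rw [hrest] at hX2
  have hgood_t' : ∀ h ≤ L, S (h + t') = S h ∧ out (h + t') = out h := by
    intro h hh
    have h1 := ha1 (h + z i) (by omega)
    have h2 := hzgood i h hh
    have e : h + t' = h + z i + a := by omega
    rw [e, h1.1, h1.2.2]
    exact h2
  have hgood_t : ∀ h ≤ L, S (h + t) = S h ∧ out (h + t) = out h := by
    intro h hh
    have h1 := ha1 (h + z i') (by omega)
    have h2 := hzgood i' h hh
    have e : h + t = h + z i' + a := by omega
    rw [e, h1.1, h1.2.2]
    exact h2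
  -- ζ
  set ζ := η (t + L) with hζ
  have hζ' : η (t' + L) = ζ := by
    have e1 : t' + L = L + z i + a := by omega
    have e2 : t + L = L + z i' + a := by omega
    rw [hζ, e1, e2, ha2, ha3, hηii]
  have hζabs : ∀ q, η 0 (ζ q) = ζ q := fun q => hη0 _ q
  have htt' : t' ≤ t := by omega
  -- block maps
  have hblocks : ∀ R : ℕ, ∃ k D : ℕ, 0 < k ∧ ∀ t0, (t0 = t ∨ t0 = t') → ∀ N, N < b ^ (t0 + L) →
      k * N < b ^ (D + t0 + L) ∧
      (∀ q, run S 0 (D + t0 + L) (k * N) q =
        run S 0 (t0 + L) N ((fun q => ζ (run S 0 (t0 + L) N q))^[R] q)) ∧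
      out (D + t0 + L) = out (t0 + L) := by
    intro R
    induction R with
    | zero =>
      refine ⟨1, 0, Nat.one_pos, ?_⟩
      intro t0 _ N hN
      refine ⟨by simpa using hN, ?_, ?_⟩
      · intro q
        simp
      · congr 1; ring
    | succ R ih =>
      obtain ⟨k, D, hk, hkD⟩ := ih
      obtain ⟨y, hy1, hy2, hy3, hy4⟩ := ((hpK (t + L)).and ((hrec (D + t + L)).and
        ((hη (t + L)).and (hη (t' + L))))).exists
      refine ⟨1 + b ^ y * k, y + D, by omega, ?_⟩
      intro t0 ht0 N hN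
      have ht0t : t0 ≤ t := by rcases ht0 with h | h <;> omega
      have hzero : run S (t0 + L) (y - (t0 + L)) 0 = ζ := by
        rcases ht0 with h | h
        · rw [h, hy3]
        · rw [h, hy4, hζ']
      obtain ⟨g1, g2, g3⟩ := hkD t0 ht0 N hN
      have hNy : N < b ^ y := lt_of_lt_of_le hN (Nat.pow_le_pow_right hb0 (by omega))
      have hmul : (1 + b ^ y * k) * N = N + b ^ y * (k * N) := by ring
      have hypos : 0 < b ^ y := by positivity
      have e1 : y + D + t0 + L = y + (D + t0 + L) := by ring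
      refine ⟨?_, ?_, ?_⟩
      · rw [hmul, e1, pow_add]
        calc N + b ^ y * (k * N) < b ^ y + b ^ y * (k * N) := by omega
          _ = b ^ y * (k * N + 1) := by ring
          _ ≤ b ^ y * b ^ (D + t0 + L) := Nat.mul_le_mul_left _ g1
      · intro q
        rw [hmul, e1, run_add]
        have d1 : (N + b ^ y * (k * N)) / b ^ y = k * N := by
          rw [Nat.add_mul_div_left _ _ hypos, Nat.div_eq_of_lt hNy, Nat.zero_add]
        rw [d1]
        have d2 : run S 0 y (N + b ^ y * (k * N)) q = run S 0 y N q := by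
          apply run_mod
          rw [Nat.add_mul_mod_self_left]
        rw [d2]
        have d3 : run S (0 + y) (D + t0 + L) = run S 0 (D + t0 + L) :=
          hrun y (D + t + L) (fun x hx => (hy2 x hx).1) 0 _ (by omega)
        rw [d3]
        have d4 : run S 0 y N q = ζ (run S 0 (t0 + L) N q) := by
          have e3 : y = (t0 + L) + (y - (t0 + L)) := by omega
          conv_lhs => rw [e3]
          rw [run_add, Nat.div_eq_of_lt hN, Nat.zero_add, hzero]
        rw [d4, g2, Function.iterate_succ_apply]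
      · rw [e1]
        have := (hy2 (D + t0 + L) (by omega)).2.2
        rw [add_comm y, this, g3]
  -- structure of a block
  set W : Q → Q := run S 0 L w with hW
  have hblock : ∀ u t0 N, u + L ≤ t0 → (∀ h ≤ L, S (h + u) = S h) → (∀ h ≤ L, S (h + t0) = S h) →
      N % b ^ (u + L) = b ^ u * w → N / b ^ t0 = w →
      ∀ q, run S 0 (t0 + L) N q =
        W (run S (u + L) (t0 - (u + L)) (N / b ^ (u + L)) (W (run S 0 u 0 q))) := by
    intro u t0 N hut hu ht0 hN1 hN2 q
    rw [run_add, Nat.zero_add, hN2]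
    have r1 : run S t0 L = run S 0 L := by
      have := hrun t0 L ht0 0 L (by omega)
      simpa using this
    rw [r1]
    change W (run S 0 t0 N q) = _
    congr 1
    have e : t0 = (u + L) + (t0 - (u + L)) := by omega
    conv_lhs => rw [e]
    rw [run_add, Nat.zero_add]
    congr 1
    rw [run_add, Nat.zero_add]
    have r2 : run S u L = run S 0 L := by
      have := hrun u L hu 0 L (by omega)
      simpa using this
    rw [r2]
    have r3 : run S 0 u N q = run S 0 u 0 q := by
      apply run_mod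
      have h1 : b ^ u ∣ b ^ (u + L) := pow_dvd_pow b (Nat.le_add_right _ _)
      rw [← Nat.mod_mod_of_dvd N h1, hN1, Nat.mul_mod_right, Nat.zero_mod]
    rw [r3]
    have r4 : ∀ q', run S 0 L (N / b ^ u) q' = run S 0 L w q' := by
      intro q'
      apply run_mod
      rw [Nat.mod_eq_of_lt hw]
      have h2 : N / b ^ u % b ^ L = N % (b ^ u * b ^ L) / b ^ u := by
        rw [Nat.mod_mul_right_div_self]
      rw [h2, ← pow_add, hN1, Nat.mul_div_cancel_left _ (by positivity)]
    rw [r4]
  -- minimal rank consequences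
  set I : Set Q := Set.range W with hI
  have hinj : ∀ (g : Q → Q) (h ℓ N : ℕ), (∀ q, run S h ℓ N q = W (g (W q))) →
      Set.InjOn (fun q => W (g q)) I := by
    intro g h ℓ N hg
    have h1 := hmin h ℓ N
    have h2 : Set.range (run S h ℓ N) = (fun q => W (g q)) '' I := by
      rw [hI]
      ext x
      constructor
      · rintro ⟨q, rfl⟩
        exact ⟨W q, ⟨q, rfl⟩, (hg q).symm⟩
      · rintro ⟨_, ⟨q, rfl⟩, rfl⟩
        exact ⟨q, hg q⟩
    rw [h2] at h1
    exact Set.injOn_of_ncard_image_eq (le_antisymm (Set.ncard_image_le (Set.toFinite _)) h1)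
      (Set.toFinite _)
  have hmaps : ∀ g : Q → Q, Set.MapsTo (fun q => W (g q)) I I := fun g q _ => ⟨g q, rfl⟩
  -- ρ
  have hρinj : Set.InjOn (fun q => W (ζ q)) I := by
    obtain ⟨y, hy1, hy2, hy3⟩ := ((hpK (t + L)).and ((hrec L).and (hη (t + L)))).exists
    refine hinj ζ t (L + (y - (t + L)) + L) (w + b ^ (y - t) * w) ?_
    intro q
    have hyt : y - t = L + (y - (t + L)) := by omega
    rw [run_add, run_add]
    have r1 : run S (t + (L + (y - (t + L)))) L = run S 0 L := by
      have e : t + (L + (y - (t + L))) = 0 + y := by omega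
      rw [e]
      exact hrun y L (fun x hx => (hy2 x hx).1) 0 L (by omega)
    rw [r1]
    have r2 : ∀ N q', run S t L N q' = run S 0 L N q' := by
      intro N q'
      have := hrun t L (fun x hx => (hgood_t x hx).1) 0 L (by omega)
      rw [← this, Nat.zero_add]
    rw [r2]
    have hwlt : w < b ^ (y - t) := lt_of_lt_of_le hw (Nat.pow_le_pow_right hb0 (by omega))
    have d1 : (w + b ^ (y - t) * w) / b ^ (L + (y - (t + L))) = w := by
      rw [← hyt, Nat.add_mul_div_left _ _ (by positivity), Nat.div_eq_of_lt hwlt, Nat.zero_add]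
    rw [d1]
    change W _ = _
    congr 1
    have d2 : run S 0 L (w + b ^ (y - t) * w) q = W q := by
      apply run_mod
      have : b ^ (y - t) = b ^ L * b ^ (y - t - L) := by
        rw [← pow_add]; congr 1; omega
      rw [this, mul_assoc, Nat.add_mul_mod_self_left]
    rw [d2]
    have d3 : ∀ q', run S (t + L) (y - (t + L)) ((w + b ^ (y - t) * w) / b ^ L) q' =
        run S (t + L) (y - (t + L)) 0 q' := by
      intro q'
      apply run_mod
      rw [Nat.zero_mod]
      have : b ^ (y - t) = b ^ L * b ^ (y - (t + L)) := by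
        rw [← pow_add]; congr 1
      rw [this, mul_assoc, Nat.add_mul_div_left _ _ (by positivity), Nat.div_eq_of_lt hw,
        Nat.zero_add, Nat.mul_mod_right]
    rw [d3, hy3]
  obtain ⟨n, hn, hnI⟩ := exists_exponent I
  obtain ⟨R, rfl⟩ : ∃ R, n = R + 1 := ⟨n - 1, by omega⟩
  -- the common final state
  have hx0 : W (st 0) ∈ I := ⟨_, rfl⟩
  set ρ : Q → Q := fun q => W (ζ q) with hρ
  have hρmaps : Set.MapsTo ρ I I := hmaps ζ
  obtain ⟨z0, hz0I, hz0⟩ : ∃ z0 ∈ I, ρ z0 = W (st 0) := by
    refine ⟨ρ^[R] (W (st 0)), hρmaps.iterate R hx0, ?_⟩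
    rw [← Function.iterate_succ_apply' ρ R]
    exact hnI ρ hρmaps hρinj _ hx0
  -- evaluation
  have heval : ∀ u t0 N, (u = 0 ∨ u = j) → (t0 = t ∨ t0 = t') →
      N % b ^ (u + L) = b ^ u * w → N / b ^ t0 = w →
      run S 0 (t0 + L) N ((fun q => ζ (run S 0 (t0 + L) N q))^[R] (st 0)) = z0 := by
    intro u t0 N hu ht0 hN1 hN2
    have hut : u + L ≤ t0 := by
      rcases hu with h | h <;> rcases ht0 with h' | h' <;> omega
    have hugood : ∀ h ≤ L, S (h + u) = S h := by
      rcases hu with h | h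
      · intro x _; rw [h]; rfl
      · intro x hx; rw [h]; exact (hjgood x hx).1
    have ht0good : ∀ h ≤ L, S (h + t0) = S h := by
      rcases ht0 with h | h
      · intro x hx; rw [h]; exact (hgood_t x hx).1
      · intro x hx; rw [h]; exact (hgood_t' x hx).1
    have hbl := hblock u t0 N hut hugood ht0good hN1 hN2
    set g : Q → Q := fun q => run S (u + L) (t0 - (u + L)) (N / b ^ (u + L)) q with hg
    set A : Q → Q := fun q => W (g q) with hA
    have hAinj : Set.InjOn A I := by
      refine hinj g u (t0 - u + L) (N / b ^ u) ?_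
      intro q
      rw [run_add]
      have e1 : u + (t0 - u) = t0 := by omega
      rw [e1, Nat.div_div_eq_div_mul, ← pow_add, e1, hN2]
      have r1 : run S t0 L = run S 0 L := by
        have := hrun t0 L ht0good 0 L (by omega)
        simpa using this
      rw [r1]
      change W _ = W _
      congr 1
      have e2 : t0 - u = L + (t0 - (u + L)) := by omega
      rw [e2, run_add, Nat.div_div_eq_div_mul, ← pow_add]
      change _ = run S (u + L) (t0 - (u + L)) (N / b ^ (u + L)) (W q)
      congr 1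
      have r2 : run S u L = run S 0 L := by
        have := hrun u L hugood 0 L (by omega)
        simpa using this
      rw [r2]
      apply run_mod
      rw [Nat.mod_eq_of_lt hw]
      have h2 : N / b ^ u % b ^ L = N % (b ^ u * b ^ L) / b ^ u := by
        rw [Nat.mod_mul_right_div_self]
      rw [h2, ← pow_add, hN1, Nat.mul_div_cancel_left _ (by positivity)]
    have hE1 : run S 0 u 0 (st 0) = st 0 := by
      rcases hu with h | h
      · rw [h]; rfl
      · rw [h, hj0, hη0st]
    have hE2 : ∀ q, run S 0 u 0 (ζ q) = ζ q := by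
      intro q
      rcases hu with h | h
      · rw [h]; rfl
      · rw [h, hj0, hζabs]
    have hF1 : run S 0 (t0 + L) N (st 0) = A (W (st 0)) := by
      rw [hbl, hE1]
    have hF2 : ∀ q, run S 0 (t0 + L) N (ζ q) = A (ρ q) := by
      intro q
      rw [hbl, hE2]
    have hiter : ∀ k q, run S 0 (t0 + L) N ((fun q => ζ (run S 0 (t0 + L) N q))^[k] q) =
        (fun q => A (ρ q))^[k] (run S 0 (t0 + L) N q) := by
      intro k
      induction k with
      | zero => intro q; rfl
      | succ k ih =>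
        intro q
        rw [Function.iterate_succ_apply, ih, Function.iterate_succ_apply]
        rw [hF2]
    rw [hiter, hF1, ← hz0]
    have h3 := hnI (fun q => A (ρ q)) (fun q hq => hmaps g (hρmaps hq))
      (fun q hq q' hq' hqq => hρinj hq hq' (hAinj (hρmaps hq) (hρmaps hq') hqq)) z0 hz0I
    rw [Function.iterate_succ_apply] at h3
    exact h3
  -- conclusion
  obtain ⟨k, D, hk, hkD⟩ := hblocks R
  have hXlt : X < b ^ (t' + L) := by
    rw [pow_add]
    have : X / b ^ t' < b ^ L := by rw [hX2]; exact hw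
    rw [mul_comm]
    exact (Nat.div_lt_iff_lt_mul (by positivity)).mp this
  have hYlt : Y < b ^ (t + L) := by
    rw [pow_add]
    have : Y / b ^ t < b ^ L := by rw [hY2]; exact hw
    rw [mul_comm]
    exact (Nat.div_lt_iff_lt_mul (by positivity)).mp this
  have hZlt : Z < b ^ (t + L) := by
    rw [pow_add]
    have : Z / b ^ t < b ^ L := by rw [hZ2]; exact hw
    rw [mul_comm]
    exact (Nat.div_lt_iff_lt_mul (by positivity)).mp this
  obtain ⟨x1, x2, x3⟩ := hkD t' (Or.inr rfl) X hXlt
  obtain ⟨y1, y2, y3⟩ := hkD t (Or.inl rfl) Y hYlt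
  obtain ⟨z1, z2, z3⟩ := hkD t (Or.inl rfl) Z hZlt
  have outt : out (t + L) = out L := by
    have := (hgood_t L le_rfl).2
    rw [add_comm t L, this]
  have outt' : out (t' + L) = out L := by
    have := (hgood_t' L le_rfl).2
    rw [add_comm t' L, this]
  refine ⟨k * X, k * Y, k * Z, D + t' + L, D + t + L, by positivity, by positivity, by positivity,
    ?_, x1, y1, z1, ?_, ?_⟩
  · calc (k * X) ^ 2 + (k * Y) ^ 2 = k ^ 2 * (X ^ 2 + Y ^ 2) := by ring
      _ = (k * Z) ^ 2 := by rw [hXYZ]; ring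
  · rw [x2, y2, x3, y3, outt, outt', heval j t' X (Or.inr rfl) (Or.inr rfl) hX1 hX2,
      heval 0 t Y (Or.inl rfl) (Or.inl rfl) (by simpa using hY1) hY2]
  · rw [y2, z2, y3, outt, heval 0 t Y (Or.inl rfl) (Or.inl rfl) (by simpa using hY1) hY2,
      heval 0 t Z (Or.inl rfl) (Or.inl rfl) (by simpa using hZ1) hZ2]

end Pool.Agent.Work.MP_0f91f8_co
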