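import Mathlib

namespace Pool.Agent.Work.MP_0f91f8_co

open Filter

attribute [local instance] Ultrafilter.add Ultrafilter.addSemigroup

/-- There is an additively idempotent ultrafilter on `ℕ` containing all cofinal segments. -/
theorem exists_idem : ∃ p : Ultrafilter ℕ, (∀ K : ℕ, ∀ᶠ a in (p : Filter ℕ), K ≤ a) ∧
    ∀ P : ℕ → Prop, (∀ᶠ a in (p : Filter ℕ), P a) →
      ∀ᶠ a in (p : Filter ℕ), ∀ᶠ a' in (p : Filter ℕ), P (a + a') := by
  obtain ⟨U, hU⟩ := exists_idempotent_of_compact_t2_of_continuous_add_left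
    (M := Ultrafilter ℕ+) Ultrafilter.continuous_add_left
  have key : ∀ P : ℕ+ → Prop, (∀ᶠ a : ℕ+ in (U : Filter ℕ+), P a) ↔
      ∀ᶠ a : ℕ+ in (U : Filter ℕ+), ∀ᶠ a' : ℕ+ in (U : Filter ℕ+), P (a + a') := by
    intro P
    rw [← Ultrafilter.eventually_add, hU]
  refine ⟨U.map (fun n : ℕ+ => (n : ℕ)), ?_, ?_⟩
  · intro K
    change ∀ᶠ a : ℕ+ in (U : Filter ℕ+), K ≤ ((a : ℕ+) : ℕ)
    induction K with
    | zero => exact Eventually.of_forall (fun _ => Nat.zero_le _)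
    | succ K ih =>
      by_contra hcon
      have h1 : ∀ᶠ a : ℕ+ in (U : Filter ℕ+), ¬ (K + 1 ≤ (a : ℕ)) := by
        exact (Ultrafilter.eventually_not).mpr hcon
      have h2 : ∀ᶠ a : ℕ+ in (U : Filter ℕ+), (a : ℕ) = K := by
        filter_upwards [h1, ih] with a ha hb
        omega
      have h3 := (key _).mp h2
      obtain ⟨a, ha, hb⟩ := (h3.and h2).exists
      obtain ⟨a', ha', hb'⟩ := (ha.and h2).exists
      have : ((a + a' : ℕ+) : ℕ) = a + a' := PNat.add_coe a a'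
      have h0 : 0 < (a : ℕ) := a.pos
      omega
  · intro P hP
    change ∀ᶠ a : ℕ+ in (U : Filter ℕ+), ∀ᶠ a' : ℕ+ in (U : Filter ℕ+), P ((a : ℕ) + (a' : ℕ))
    have hP' : ∀ᶠ a : ℕ+ in (U : Filter ℕ+), P ((a : ℕ+) : ℕ) := hP
    have := (key _).mp hP'
    simpa using this

/-- A function to a finite type has a limit along an ultrafilter. -/
theorem exists_lim {ι F : Type*} [Finite F] (p : Ultrafilter ι) (φ : ι → F) :
    ∃ v, ∀ᶠ a in (p : Filter ι), φ a = v := by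
  obtain ⟨v, hv⟩ := Ultrafilter.eq_pure_of_finite (p.map φ)
  refine ⟨v, ?_⟩
  have : ({v} : Set F) ∈ p.map φ := by rw [hv]; exact Set.mem_singleton v
  exact this

end Pool.Agent.Work.MP_0f91f8_co
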